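import Mathlib
import Pool.Agent.Y364.NL.Abs

set_option autoImplicit false
set_option linter.unusedSectionVars false
set_option linter.unusedVariables false

/-!
# Building up normal 3-complexes with simply connected vertex links
-/

namespace Pool.Agent.Y364.E3

open Finset Pool.Agent.H933R3 Pool.Agent.Y364.NL

variable {V : Type} [DecidableEq V] {K : Finset (Finset V)}

/-- interior ridges: triangles in two different facets -/
def IR (K : Finset (Finset V)) (R : Finset V) : Prop :=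
  R.card = 3 ∧ ∃ F F', IsFacet K F ∧ IsFacet K F' ∧ F ≠ F' ∧ R ⊆ F ∧ R ⊆ F'

/-- adjacency of facets through a ridge containing `A` -/
def Adj (K : Finset (Finset V)) (A X Y : Finset V) : Prop :=
  IsFacet K X ∧ IsFacet K Y ∧ ∃ R : Finset V, R.card = 3 ∧ A ⊆ R ∧ R ⊆ X ∧ R ⊆ Y

/-- connectedness of facets through ridges containing `A` -/
def Conn (K : Finset (Finset V)) (A X Y : Finset V) : Prop :=
  Relation.ReflTransGen (Adj K A) X Y

/-- the local properties of 3-balls that are used -/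
structure Good (K : Finset (Finset V)) : Prop where
  cx : IsCx K
  pure : ∀ F, IsFacet K F → F.card = 4
  two : AtMostTwo 3 K
  conn : ∀ A ∈ K, A.card ≤ 2 → ∀ F F', IsFacet K F → IsFacet K F' → A ⊆ F → A ⊆ F' →
    Conn K A F F'
  sep : ∀ v, ∀ D : Finset (Finset V), (∀ R ∈ D, IR K R ∧ v ∈ R) →
    (∀ A, A ∈ K → A.card = 2 → v ∈ A → (∀ R ∈ K, R.card = 3 → A ⊆ R → IR K R) →
      Even (D.filter (fun R => A ⊆ R)).card) →
    ∃ c : Finset V → Bool, ∀ R, IR K R → v ∈ R → ∀ F F', IsFacet K F → IsFacet K F' → F ≠ F' →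
      R ⊆ F → R ⊆ F' → (c F ≠ c F' ↔ R ∈ D)

theorem exists_facet {σ : Finset V} (h : σ ∈ K) : ∃ F, IsFacet K F ∧ σ ⊆ F := by
  obtain ⟨m, hm, hmax⟩ := K.exists_le_maximal h
  refine ⟨m, ⟨hmax.prop, fun G hG hle => ?_⟩, hm⟩
  exact (Subset.antisymm hle (hmax.2 hG hle)).symm

theorem IR_mem (hc : IsCx K) {R : Finset V} (h : IR K R) : R ∈ K := by
  obtain ⟨-, F, -, hF, -, -, h1, -⟩ := h
  exact hc.2 _ hF.1 _ h1

/-- the placed facets containing `A` are connected by glued ridges containing `A` -/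
def ConnG (𝓕 G : Finset (Finset V)) (A : Finset V) : Prop :=
  ∀ F ∈ 𝓕, ∀ F' ∈ 𝓕, A ⊆ F → A ⊆ F' → SameFace 𝓕 G A F F'

theorem same_mono {𝓕 𝓕' G G' : Finset (Finset V)} {A F F' : Finset V} (h1 : 𝓕 ⊆ 𝓕')
    (h2 : G ⊆ G') (h : SameFace 𝓕 G A F F') : SameFace 𝓕' G' A F F' := by
  refine Relation.ReflTransGen.mono ?_ _ _ h
  rintro X Y ⟨hX, hY, R, hR, h3⟩
  exact ⟨h1 hX, h1 hY, R, h2 hR, h3⟩

theorem same_symm {𝓕 G : Finset (Finset V)} {A F F' : Finset V} (h : SameFace 𝓕 G A F F') :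
    SameFace 𝓕 G A F' F := by
  induction h with
  | refl => exact Relation.ReflTransGen.refl
  | tail _ hs ih =>
    obtain ⟨hX, hY, R, hR, h3, h4, h5⟩ := hs
    exact (Relation.ReflTransGen.single ⟨hY, hX, R, hR, h3, h5, h4⟩).trans ih

theorem same_single {𝓕 G : Finset (Finset V)} {A F F' R : Finset V} (hF : F ∈ 𝓕) (hF' : F' ∈ 𝓕)
    (hR : R ∈ G) (h1 : A ⊆ R) (h2 : R ⊆ F) (h3 : R ⊆ F') : SameFace 𝓕 G A F F' :=
  Relation.ReflTransGen.single ⟨hF, hF', R, hR, h1, h2, h3⟩

theorem same_anti {𝓕 G : Finset (Finset V)} {A B F F' : Finset V} (hAB : A ⊆ B)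
    (h : SameFace 𝓕 G B F F') : SameFace 𝓕 G A F F' := by
  refine Relation.ReflTransGen.mono ?_ _ _ h
  rintro X Y ⟨hX, hY, R, hR, h3, h4⟩
  exact ⟨hX, hY, R, hR, hAB.trans h3, h4⟩

theorem first_step {α : Type} {r : α → α → Prop} {P : α → Prop} {a b : α}
    (h : Relation.ReflTransGen r a b) (ha : P a) (hb : ¬ P b) : ∃ x y, r x y ∧ P x ∧ ¬ P y := by
  induction h with
  | refl => exact absurd ha hb
  | tail h1 h2 ih =>
    rename_i b c
    by_cases hPb : P b
    · exact ⟨b, c, h2, hPb, hb⟩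
    · exact ih hPb

theorem ridge_new (hK : Good K) {𝓕 G : Finset (Finset V)} (h : LCStage 3 K 𝓕 G) {Y R : Finset V}
    (hY : IsFacet K Y) (hn : Y ∉ 𝓕) (hR : R ⊆ Y) : R ∉ G := by
  intro hG
  obtain ⟨h1, h2, -⟩ := stage_basic h
  obtain ⟨hc, X', hX', Y', hY', hne, h3, h4⟩ := h2 R hG
  rcases hK.two R hc Y X' Y' hY (h1 X' hX') (h1 Y' hY') hR h3 h4 with e | e | e
  · exact hn (e ▸ hX')
  · exact hn (e ▸ hY')
  · exact hne e

open Classical in
theorem attach_all (hK : Good K) {A : Finset V} (hA : A ∈ K) (hc : A.card ≤ 2) :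
    ∀ (m : ℕ) (𝓕 G : Finset (Finset V)), LCStage 3 K 𝓕 G →
      (K.filter (fun F => IsFacet K F ∧ A ⊆ F ∧ F ∉ 𝓕)).card ≤ m → (∃ F0 ∈ 𝓕, A ⊆ F0) →
      ConnG 𝓕 G A →
      ∃ 𝓕' G', LCStage 3 K 𝓕' G' ∧ (∀ F, F ∈ 𝓕' ↔ F ∈ 𝓕 ∨ (IsFacet K F ∧ A ⊆ F)) ∧ G ⊆ G' ∧
        (∀ R ∈ G', R ∈ G ∨ A ⊆ R) ∧ ConnG 𝓕' G' A := by
  intro m
  induction m with
  | zero =>
    intro 𝓕 G h hm h0 hconn
    refine ⟨𝓕, G, h, fun F => ⟨Or.inl, ?_⟩, Subset.refl _, fun R hR => Or.inl hR, hconn⟩
    rintro (hF | ⟨hF, hAF⟩)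
    · exact hF
    · by_contra hn
      rw [Nat.le_zero, card_eq_zero] at hm
      have : F ∈ K.filter (fun F => IsFacet K F ∧ A ⊆ F ∧ F ∉ 𝓕) :=
        mem_filter.2 ⟨hF.1, hF, hAF, hn⟩
      rw [hm] at this
      exact absurd this (notMem_empty _)
  | succ m ih =>
    intro 𝓕 G h hm h0 hconn
    by_cases hall : ∀ F, IsFacet K F → A ⊆ F → F ∈ 𝓕
    · refine ⟨𝓕, G, h, fun F => ⟨Or.inl, ?_⟩, Subset.refl _, fun R hR => Or.inl hR, hconn⟩
      rintro (hF | ⟨hF, hAF⟩)
      · exact hF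
      · exact hall F hF hAF
    · push Not at hall
      obtain ⟨F1, hF1, hAF1, hn1⟩ := hall
      obtain ⟨F0, hF0, hAF0⟩ := h0
      obtain ⟨hb, -, -⟩ := stage_basic h
      obtain ⟨X, Y, ⟨hX, hY, R, hR, hAR, hRX, hRY⟩, hX1, hY1⟩ :=
        first_step (P := fun F => F ∈ 𝓕) (hK.conn A hA hc F0 F1 (hb F0 hF0) hF1 hAF0 hAF1) hF0 hn1
      have hRG := ridge_new hK h hY hY1 hRY
      have hst := LCStage.attach 𝓕 G X Y R h hX1 hY hY1 hR hRX hRY hRG
      have hlt : (K.filter (fun F => IsFacet K F ∧ A ⊆ F ∧ F ∉ insert Y 𝓕)).card ≤ m := by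
        have : (K.filter (fun F => IsFacet K F ∧ A ⊆ F ∧ F ∉ insert Y 𝓕)) ⊂
            (K.filter (fun F => IsFacet K F ∧ A ⊆ F ∧ F ∉ 𝓕)) := by
          refine ⟨fun F hF => ?_, fun hsub => ?_⟩
          · rw [mem_filter] at hF ⊢
            exact ⟨hF.1, hF.2.1, hF.2.2.1, fun h => hF.2.2.2 (mem_insert_of_mem h)⟩
          · have := hsub (mem_filter.2 ⟨hY.1, hY, hAR.trans hRY, hY1⟩)
            rw [mem_filter] at this
            exact this.2.2.2 (mem_insert_self _ _)
        have := card_lt_card this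
        omega
      have hXY : SameFace (insert Y 𝓕) (insert R G) A X Y :=
        same_single (mem_insert_of_mem hX1) (mem_insert_self _ _) (mem_insert_self _ _) hAR hRX hRY
      have hold : ∀ F ∈ 𝓕, A ⊆ F → SameFace (insert Y 𝓕) (insert R G) A F Y := fun F hF hAF =>
        (same_mono (subset_insert _ _) (subset_insert _ _)
          (hconn F hF X hX1 hAF (hAR.trans hRX))).trans hXY
      obtain ⟨𝓕', G', h1, h2, h3, h4, h5⟩ := ih (insert Y 𝓕) (insert R G) hst hlt
        ⟨F0, mem_insert_of_mem hF0, hAF0⟩ (by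
          intro F hF F' hF' hAF hAF'
          rcases mem_insert.1 hF with e | hF
          · rcases mem_insert.1 hF' with e' | hF'
            · rw [e, e']
              exact Relation.ReflTransGen.refl
            · rw [e]
              exact same_symm (hold F' hF' hAF')
          · rcases mem_insert.1 hF' with e' | hF'
            · rw [e']
              exact hold F hF hAF
            · exact same_mono (subset_insert _ _) (subset_insert _ _)
                (hconn F hF F' hF' hAF hAF'))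
      refine ⟨𝓕', G', h1, fun F => ?_, (subset_insert _ _).trans h3, fun R' hR' => ?_, h5⟩
      · rw [h2 F, mem_insert]
        constructor
        · rintro ((rfl | hF) | hF)
          · exact Or.inr ⟨hY, hAR.trans hRY⟩
          · exact Or.inl hF
          · exact Or.inr hF
        · rintro (hF | hF)
          · exact Or.inl (Or.inr hF)
          · exact Or.inr hF
      · rcases h4 R' hR' with h | h
        · rcases mem_insert.1 h with rfl | h
          · exact Or.inr hAR
          · exact Or.inl h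
        · exact Or.inr h

/-! ### the cycle of facets around an interior edge -/

theorem two_ridges {A X : Finset V} (hA : A.card = 2) (hX : X.card = 4) (h : A ⊆ X) :
    ∃ ρ₁ ρ₂ : Finset V, ρ₁ ≠ ρ₂ ∧ ∀ ρ : Finset V, (ρ.card = 3 ∧ A ⊆ ρ ∧ ρ ⊆ X) ↔
      (ρ = ρ₁ ∨ ρ = ρ₂) := by
  have h1 : (X \ A).card = 2 := by rw [card_sdiff_of_subset h]; omega
  obtain ⟨x, y, hxy, hXA⟩ := card_eq_two.1 h1
  have hx : x ∈ X \ A := by rw [hXA]; simp
  have hy : y ∈ X \ A := by rw [hXA]; simp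
  rw [mem_sdiff] at hx hy
  refine ⟨insert x A, insert y A, ?_, ?_⟩
  · intro he
    have : x ∈ insert y A := he ▸ mem_insert_self x A
    rcases mem_insert.1 this with h | h
    · exact hxy h
    · exact hx.2 h
  · intro ρ
    constructor
    · rintro ⟨h2, h3, h4⟩
      have h5 : (ρ \ A).card = 1 := by rw [card_sdiff_of_subset h3]; omega
      obtain ⟨z, hz⟩ := card_eq_one.1 h5
      have hz1 : z ∈ ρ \ A := by rw [hz]; simp
      have hz2 : z ∈ X \ A := sdiff_subset_sdiff h4 (Subset.refl _) hz1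
      have h6 : ρ = insert z A := by
        rw [← sdiff_union_of_subset h3, hz]
        rfl
      rw [hXA, mem_insert, mem_singleton] at hz2
      rcases hz2 with rfl | rfl
      · exact Or.inl h6
      · exact Or.inr h6
    · rintro (rfl | rfl)
      · exact ⟨by rw [card_insert_of_notMem hx.2, hA], subset_insert _ _,
          insert_subset hx.1 h⟩
      · exact ⟨by rw [card_insert_of_notMem hy.2, hA], subset_insert _ _,
          insert_subset hy.1 h⟩

open Classical in
theorem cycle (hK : Good K) {𝓕 G : Finset (Finset V)} {A R F F' : Finset V} (hA : A.card = 2)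
    (hint : ∀ ρ ∈ K, ρ.card = 3 → A ⊆ ρ → IR K ρ) (hall : ∀ X, IsFacet K X → A ⊆ X → X ∈ 𝓕)
    (hG : ∀ ρ, IR K ρ → A ⊆ ρ → ρ ≠ R → ρ ∈ G) (hF : IsFacet K F) (hF' : IsFacet K F')
    (hR : R.card = 3) (hAR : A ⊆ R) (h1 : R ⊆ F) (h2 : R ⊆ F') (hne : F ≠ F') :
    SameFace 𝓕 G A F F' := by
  by_contra hcon
  let S := K.filter (fun X => IsFacet K X ∧ A ⊆ X ∧ SameFace 𝓕 G A F X)
  let Q := K.filter (fun ρ => ρ.card = 3 ∧ A ⊆ ρ)
  have hS : ∀ X, X ∈ S ↔ IsFacet K X ∧ A ⊆ X ∧ SameFace 𝓕 G A F X := fun X => by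
    rw [mem_filter]
    exact ⟨fun h => h.2, fun h => ⟨h.1.1, h⟩⟩
  have hcount : ∑ X ∈ S, (Q.filter (fun ρ => ρ ⊆ X)).card =
      ∑ ρ ∈ Q, (S.filter (fun X => ρ ⊆ X)).card := by
    simp only [card_filter]
    exact sum_comm
  have hleft : ∑ X ∈ S, (Q.filter (fun ρ => ρ ⊆ X)).card = 2 * S.card := by
    rw [sum_const_nat (m := 2), mul_comm]
    intro X hX
    rw [hS] at hX
    obtain ⟨ρ₁, ρ₂, hne', h3⟩ := two_ridges hA (hK.pure X hX.1) hX.2.1
    have : Q.filter (fun ρ => ρ ⊆ X) = {ρ₁, ρ₂} := by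
      ext ρ
      rw [mem_filter, mem_filter, mem_insert, mem_singleton, ← h3 ρ]
      constructor
      · rintro ⟨⟨-, h4, h5⟩, h6⟩
        exact ⟨h4, h5, h6⟩
      · rintro ⟨h4, h5, h6⟩
        exact ⟨⟨hK.cx.2 _ hX.1.1 _ h6, h4, h5⟩, h6⟩
    rw [this, card_pair hne']
  have hRQ : R ∈ Q := mem_filter.2 ⟨hK.cx.2 _ hF.1 _ h1, hR, hAR⟩
  have hone : (S.filter (fun X => R ⊆ X)).card = 1 := by
    rw [card_eq_one]
    refine ⟨F, ?_⟩
    ext X
    rw [mem_filter, hS, mem_singleton]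
    constructor
    · rintro ⟨⟨h3, h4, h5⟩, h6⟩
      rcases hK.two R hR X F F' h3 hF hF' h6 h1 h2 with e | e | e
      · exact e
      · exact absurd (e ▸ h5) hcon
      · exact absurd e hne
    · rintro rfl
      exact ⟨⟨hF, hAR.trans h1, Relation.ReflTransGen.refl⟩, h1⟩
  have heven : ∀ ρ ∈ Q.erase R, Even (S.filter (fun X => ρ ⊆ X)).card := by
    intro ρ hρ
    rw [mem_erase, mem_filter] at hρ
    obtain ⟨hρR, hρK, hρ3, hAρ⟩ := hρ
    have hIR := hint ρ hρK hρ3 hAρ
    have hρG := hG ρ hIR hAρ hρR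
    obtain ⟨-, X1, X2, hX1, hX2, hX12, h3, h4⟩ := hIR
    have h12 : SameFace 𝓕 G A X1 X2 :=
      same_single (hall X1 hX1 (hAρ.trans h3)) (hall X2 hX2 (hAρ.trans h4)) hρG hAρ h3 h4
    by_cases hs : SameFace 𝓕 G A F X1
    · have : S.filter (fun X => ρ ⊆ X) = {X1, X2} := by
        ext X
        rw [mem_filter, hS, mem_insert, mem_singleton]
        constructor
        · rintro ⟨⟨h5, -, -⟩, h6⟩
          rcases hK.two ρ hρ3 X X1 X2 h5 hX1 hX2 h6 h3 h4 with e | e | e
          · exact Or.inl e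
          · exact Or.inr e
          · exact absurd e hX12
        · rintro (rfl | rfl)
          · exact ⟨⟨hX1, hAρ.trans h3, hs⟩, h3⟩
          · exact ⟨⟨hX2, hAρ.trans h4, hs.trans h12⟩, h4⟩
      rw [this, card_pair hX12]
      exact even_two
    · have : S.filter (fun X => ρ ⊆ X) = ∅ := by
        rw [filter_eq_empty_iff]
        intro X hX h6
        rw [hS] at hX
        rcases hK.two ρ hρ3 X X1 X2 hX.1 hX1 hX2 h6 h3 h4 with e | e | e
        · exact hs (e ▸ hX.2.2)
        · exact hs ((e ▸ hX.2.2 : SameFace 𝓕 G A F X2).trans (same_symm h12))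
        · exact hX12 e
      rw [this, card_empty]
      exact Even.zero
  rw [hleft, ← add_sum_erase Q _ hRQ, hone] at hcount
  have h7 : Even (∑ ρ ∈ Q.erase R, (S.filter (fun X => ρ ⊆ X)).card) := Finset.even_sum _ heven
  obtain ⟨a, ha⟩ := h7
  omega

/-! ### an edge around which exactly one ridge is not glued -/

theorem parity_filter (z₁ z₂ : Finset (Finset V)) (p : Finset V → Prop) [DecidablePred p] :
    ((z₁ \ z₂ ∪ z₂ \ z₁).filter p).card + 2 * ((z₁ ∩ z₂).filter p).card =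
      (z₁.filter p).card + (z₂.filter p).card := by
  have h1 : (z₁.filter p).card = ((z₁ \ z₂).filter p).card + ((z₁ ∩ z₂).filter p).card := by
    rw [← card_union_of_disjoint, ← filter_union, sdiff_union_inter]
    exact disjoint_filter_filter (disjoint_sdiff_inter z₁ z₂)
  have h2 : (z₂.filter p).card = ((z₂ \ z₁).filter p).card + ((z₁ ∩ z₂).filter p).card := by
    rw [inter_comm z₁ z₂, ← card_union_of_disjoint, ← filter_union, sdiff_union_inter]
    exact disjoint_filter_filter (disjoint_sdiff_inter z₂ z₁)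
  have h3 : ((z₁ \ z₂ ∪ z₂ \ z₁).filter p).card =
      ((z₁ \ z₂).filter p).card + ((z₂ \ z₁).filter p).card := by
    rw [filter_union, card_union_of_disjoint]
    exact disjoint_filter_filter (disjoint_sdiff_sdiff)
  omega

open Classical in
theorem exists_even (D : Finset (Finset V)) (I : Finset (Finset V)) (hD : D.Nonempty) {v : V}
    (hDc : ∀ R ∈ D, R.card = 3 ∧ v ∈ R) (hI : ∀ A ∈ I, A.card = 2 ∧ v ∈ A)
    (hdeg : ∀ A ∈ I, (D.filter (fun R => A ⊆ R)).card ≠ 1) :
    ∃ z ⊆ D, z.Nonempty ∧ ∀ A ∈ I, Even (z.filter (fun R => A ⊆ R)).card := by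
  let J := I.filter (fun A => 2 ≤ (D.filter (fun R => A ⊆ R)).card)
  have hsum : ∑ A ∈ J, (D.filter (fun R => A ⊆ R)).card ≤ 2 * D.card := by
    have h1 : ∑ A ∈ J, (D.filter (fun R => A ⊆ R)).card =
        ∑ R ∈ D, (J.filter (fun A => A ⊆ R)).card := by
      simp only [card_filter]
      exact sum_comm
    rw [h1, mul_comm]
    apply sum_le_card_nsmul
    intro R hR
    obtain ⟨h2, h3⟩ := hDc R hR
    have h4 : J.filter (fun A => A ⊆ R) ⊆ (R.erase v).image (fun x => {v, x}) := by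
      intro A hA
      rw [mem_filter, mem_filter] at hA
      obtain ⟨⟨hAI, -⟩, hAR⟩ := hA
      obtain ⟨h5, h6⟩ := hI A hAI
      obtain ⟨x, hx⟩ := card_eq_one.1 (show (A.erase v).card = 1 by
        rw [card_erase_of_mem h6]; omega)
      rw [mem_image]
      refine ⟨x, ?_, ?_⟩
      · have : x ∈ A.erase v := by rw [hx]; simp
        exact erase_subset_erase v hAR this
      · rw [← insert_erase h6, hx]
    refine (card_le_card h4).trans (card_image_le.trans ?_)
    rw [card_erase_of_mem h3]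
    omega
  have hlow : 2 * J.card ≤ ∑ A ∈ J, (D.filter (fun R => A ⊆ R)).card := by
    rw [mul_comm, ← smul_eq_mul]
    apply card_nsmul_le_sum
    intro A hA
    exact (mem_filter.1 hA).2
  have hzero : ∀ A ∈ I, A ∉ J → D.filter (fun R => A ⊆ R) = ∅ := by
    intro A hA hn
    rw [← card_eq_zero]
    have h1 : ¬ 2 ≤ (D.filter (fun R => A ⊆ R)).card := fun h => hn (mem_filter.2 ⟨hA, h⟩)
    have := hdeg A hA
    omega
  rcases Nat.lt_or_ge J.card D.card with hlt | hge
  · obtain ⟨z₁, hz₁, z₂, hz₂, hne, heq⟩ := exists_ne_map_eq_of_card_lt_of_maps_to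
      (s := D.powerset) (t := J.powerset)
      (f := fun z => J.filter (fun A => Odd (z.filter (fun R => A ⊆ R)).card)) (by
        rw [card_powerset, card_powerset]
        exact Nat.pow_lt_pow_right (by norm_num) hlt) (by
        intro z _
        rw [mem_coe, mem_powerset]
        exact filter_subset _ _)
    rw [mem_powerset] at hz₁ hz₂
    have hsub : z₁ \ z₂ ∪ z₂ \ z₁ ⊆ D :=
      union_subset (sdiff_subset.trans hz₁) (sdiff_subset.trans hz₂)
    refine ⟨z₁ \ z₂ ∪ z₂ \ z₁, hsub, ?_, ?_⟩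
    · rw [nonempty_iff_ne_empty]
      intro h
      rw [union_eq_empty, sdiff_eq_empty_iff_subset, sdiff_eq_empty_iff_subset] at h
      exact hne (Subset.antisymm h.1 h.2)
    · intro A hA
      by_cases hAJ : A ∈ J
      · have h1 := parity_filter z₁ z₂ (fun R => A ⊆ R)
        have h2 : Odd (z₁.filter (fun R => A ⊆ R)).card ↔ Odd (z₂.filter (fun R => A ⊆ R)).card := by
          have h3 := congrArg (fun s => A ∈ s) heq
          simp only [mem_filter, hAJ, true_and, eq_iff_iff] at h3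
          exact h3
        have h4 : Even ((z₁.filter (fun R => A ⊆ R)).card + (z₂.filter (fun R => A ⊆ R)).card) := by
          rw [Nat.even_add, ← Nat.not_odd_iff_even, ← Nat.not_odd_iff_even, h2]
        rw [← h1] at h4
        rw [Nat.even_add] at h4
        exact h4.2 (even_two_mul _)
      · have h1 : (z₁ \ z₂ ∪ z₂ \ z₁).filter (fun R => A ⊆ R) = ∅ := by
          rw [← subset_empty, ← hzero A hA hAJ]
          exact filter_subset_filter _ hsub
        rw [h1, card_empty]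
        exact Even.zero
  · refine ⟨D, Subset.refl _, hD, ?_⟩
    intro A hA
    by_cases hAJ : A ∈ J
    · have h1 : ∑ A ∈ J, (D.filter (fun R => A ⊆ R)).card = ∑ A ∈ J, 2 := by
        rw [sum_const, smul_eq_mul]
        omega
      have h2 := (sum_eq_sum_iff_of_le (fun A hA => (mem_filter.1 hA).2)).1 h1.symm A hAJ
      rw [← h2]
      exact even_two
    · rw [hzero A hA hAJ, card_empty]
      exact Even.zero

end Pool.Agent.Y364.E3
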