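import Mathlib
import Pool.Agent.Y364.E3.Core

set_option autoImplicit false

/-!
# Supports of points of the realization of a complex
-/

open Filter Topology Finset Pool.Agent.H933R3

namespace Pool.Agent.Y364.E3

variable {n : ℕ} {K : Finset (Finset (Fin n))}

/-- the support of a point -/
noncomputable def supp (x : Fin n → ℝ) : Finset (Fin n) := by
  classical exact univ.filter (fun i => x i ≠ 0)

theorem mem_supp {x : Fin n → ℝ} {i : Fin n} : i ∈ supp x ↔ x i ≠ 0 := by
  classical
  rw [supp, mem_filter]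
  exact ⟨fun h => h.2, fun h => ⟨mem_univ i, h⟩⟩

theorem supp_pos {x : Fin n → ℝ} (hx : x ∈ realization K) {i : Fin n} (h : i ∈ supp x) :
    0 < x i := lt_of_le_of_ne (hx.1 i) (Ne.symm (mem_supp.1 h))

theorem supp_mem (hK : IsCx K) {x : Fin n → ℝ} (hx : x ∈ realization K) : supp x ∈ K := by
  obtain ⟨h1, h2, σ, hσ, h3⟩ := hx
  refine hK.2 σ hσ _ ?_
  intro i hi
  by_contra hn
  exact mem_supp.1 hi (h3 i hn)

theorem sum_supp {x : Fin n → ℝ} (hx : x ∈ realization K) : ∑ i ∈ supp x, x i = 1 := by
  rw [← hx.2.1]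
  apply sum_subset (subset_univ _)
  intro i _ hi
  by_contra hn
  exact hi (mem_supp.2 hn)

theorem supp_nonempty {x : Fin n → ℝ} (hx : x ∈ realization K) : (supp x).Nonempty := by
  rw [nonempty_iff_ne_empty]
  intro h
  have := sum_supp hx
  rw [h, sum_empty] at this
  exact zero_ne_one this

theorem mem_real {x : Fin n → ℝ} {σ : Finset (Fin n)} (hσ : σ ∈ K) (h0 : ∀ i, 0 ≤ x i)
    (h1 : ∑ i, x i = 1) (h2 : supp x ⊆ σ) : x ∈ realization K := by
  refine ⟨h0, h1, σ, hσ, fun i hi => ?_⟩
  by_contra hn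
  exact hi (h2 (mem_supp.2 hn))

theorem supp_mono (x : Fin n → ℝ) : ∀ᶠ y in 𝓝 x, supp x ⊆ supp y := by
  have h : ∀ i ∈ supp x, ∀ᶠ y : Fin n → ℝ in 𝓝 x, y i ≠ 0 := by
    intro i hi
    exact (continuous_apply i).continuousAt.eventually_ne (mem_supp.1 hi)
  have h2 : ∀ᶠ y : Fin n → ℝ in 𝓝 x, ∀ i ∈ supp x, y i ≠ 0 :=
    (Filter.eventually_all_finset (supp x)).2 h
  filter_upwards [h2] with y hy i hi
  exact mem_supp.2 (hy i hi)

/-- the barycentre of a face -/
noncomputable def bary (σ : Finset (Fin n)) : Fin n → ℝ := by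
  classical exact fun i => if i ∈ σ then (σ.card : ℝ)⁻¹ else 0

theorem bary_nonneg (σ : Finset (Fin n)) (i : Fin n) : 0 ≤ bary σ i := by
  classical
  unfold bary
  split_ifs
  · positivity
  · exact le_rfl

theorem supp_bary (σ : Finset (Fin n)) : supp (bary σ) = σ := by
  classical
  ext i
  rw [mem_supp]
  unfold bary
  constructor
  · intro h
    by_contra hn
    exact h (if_neg hn)
  · intro h
    rw [if_pos h]
    have : (σ.card : ℝ) ≠ 0 := by
      have := card_pos.2 ⟨i, h⟩
      positivity
    exact inv_ne_zero this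

theorem bary_mem {σ : Finset (Fin n)} (hσ : σ ∈ K) (hne : σ.Nonempty) : bary σ ∈ realization K := by
  classical
  refine mem_real hσ (bary_nonneg σ) ?_ (supp_bary σ).subset
  unfold bary
  rw [sum_ite_mem, univ_inter, sum_const, nsmul_eq_mul]
  have : (σ.card : ℝ) ≠ 0 := by
    have := card_pos.2 hne
    positivity
  exact mul_inv_cancel₀ this

/-- segments inside the realization -/
theorem seg_mem (hK : IsCx K) {q z y : Fin n → ℝ} (hq : q ∈ realization K)
    (hz : z ∈ realization K) (h : supp q ⊆ supp z) (hy : y ∈ segment ℝ q z) :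
    y ∈ realization K ∧ (y = q ∨ supp y = supp z) := by
  obtain ⟨a, b, ha, hb, hab, rfl⟩ := hy
  rcases eq_or_lt_of_le hb with hb0 | hb0
  · have ha1 : a = 1 := by linarith
    have : a • q + b • z = q := by rw [ha1, ← hb0, one_smul, zero_smul, add_zero]
    rw [this]
    exact ⟨hq, Or.inl rfl⟩
  · have hs : supp (a • q + b • z) = supp z := by
      ext i
      rw [mem_supp, mem_supp]
      have hval : (a • q + b • z) i = a * q i + b * z i := rfl
      rw [hval]
      constructor
      · intro h1 h2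
        have h3 : q i = 0 := by
          by_contra hn
          exact mem_supp.1 (h (mem_supp.2 hn)) h2
        rw [h2, h3] at h1
        simp at h1
      · intro h1
        have h2 : 0 < z i := lt_of_le_of_ne (hz.1 i) (Ne.symm h1)
        have h3 := hq.1 i
        positivity
    refine ⟨mem_real (supp_mem hK hz) ?_ ?_ hs.subset, Or.inr hs⟩
    · intro i
      have hval : (a • q + b • z) i = a * q i + b * z i := rfl
      rw [hval]
      have h3 := hq.1 i
      have h4 := hz.1 i
      positivity
    · have hval : ∀ i, (a • q + b • z) i = a * q i + b * z i := fun i => rfl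
      rw [sum_congr rfl (fun i _ => hval i), sum_add_distrib, ← mul_sum, ← mul_sum, hq.2.1, hz.2.1]
      linarith

theorem exists_point (hK : IsCx K) {x0 : Fin n → ℝ} (hx0 : x0 ∈ realization K)
    {σ : Finset (Fin n)} (hσ : σ ∈ K) (hs : supp x0 ⊆ σ) {δ : ℝ} (hδ : 0 < δ) :
    ∃ z ∈ realization K, supp z = σ ∧ dist z x0 < δ := by
  have hne : σ.Nonempty := (supp_nonempty hx0).mono hs
  have hb := bary_mem hσ hne
  have hs' : supp x0 ⊆ supp (bary σ) := by rw [supp_bary]; exact hs
  set t : ℝ := min 1 (δ / (2 * (1 + dist x0 (bary σ)))) with ht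
  have hd : 0 ≤ dist x0 (bary σ) := dist_nonneg
  have ht0 : 0 < t := lt_min one_pos (by positivity)
  have ht1 : t ≤ 1 := min_le_left _ _
  have hmem : (1 - t) • x0 + t • bary σ ∈ segment ℝ x0 (bary σ) :=
    ⟨1 - t, t, by linarith, ht0.le, by ring, rfl⟩
  obtain ⟨h1, h2⟩ := seg_mem hK hx0 hb hs' hmem
  have hdist : dist ((1 - t) • x0 + t • bary σ) x0 < δ := by
    have h3 : (1 - t) • x0 + t • bary σ - x0 = t • (bary σ - x0) := by
      rw [sub_smul, one_smul, smul_sub]
      abel
    rw [dist_eq_norm, h3, norm_smul, Real.norm_eq_abs, abs_of_pos ht0, ← dist_eq_norm, dist_comm]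
    have h4 : t ≤ δ / (2 * (1 + dist x0 (bary σ))) := min_le_right _ _
    calc t * dist x0 (bary σ) ≤ δ / (2 * (1 + dist x0 (bary σ))) * dist x0 (bary σ) := by gcongr
      _ = δ / 2 * (dist x0 (bary σ) / (1 + dist x0 (bary σ))) := by
          field_simp
      _ ≤ δ / 2 * 1 := by
          gcongr
          rw [div_le_one (by positivity)]
          linarith
      _ < δ := by linarith
  rcases h2 with h2 | h2
  · -- then `t • (bary σ - x0) = 0`, so `x0 = bary σ`
    have h3 : t • (bary σ - x0) = 0 := by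
      have : (1 - t) • x0 + t • bary σ - x0 = 0 := sub_eq_zero.2 h2
      rw [← this, sub_smul, one_smul, smul_sub]
      abel
    rw [smul_eq_zero, sub_eq_zero] at h3
    rcases h3 with h3 | h3
    · exact absurd h3 ht0.ne'
    · exact ⟨x0, hx0, by rw [← h3, supp_bary], by rw [dist_self]; exact hδ⟩
  · exact ⟨_, h1, by rw [h2, supp_bary], hdist⟩

theorem seg_dist {x0 q z y : Fin n → ℝ} {δ : ℝ} (hq : dist q x0 < δ) (hz : dist z x0 < δ)
    (hy : y ∈ segment ℝ q z) : dist y x0 < δ :=
  (convex_ball x0 δ).segment_subset hq hz hy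

/-- locally constant functions are constant on segments -/
theorem seg_const {B : Set (Fin n → ℝ)} {g : (Fin n → ℝ) → Bool} {q z : Fin n → ℝ}
    (h : ∀ y ∈ segment ℝ q z, y ∈ B ∧ ∀ᶠ y' in 𝓝[B] y, g y' = g y) : g q = g z := by
  have hc : ContinuousOn g (segment ℝ q z) := by
    intro y hy
    obtain ⟨h1, h2⟩ := h y hy
    have : ContinuousWithinAt g B y := by
      rw [ContinuousWithinAt, nhds_discrete, tendsto_pure]
      exact h2
    exact this.mono (fun y hy => (h y hy).1)
  exact (convex_segment q z).isPreconnected.constant hc (left_mem_segment ℝ q z)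
    (right_mem_segment ℝ q z)

/-- locally constant functions on a preconnected set are constant -/
theorem pre_const {B : Set (Fin n → ℝ)} {g : (Fin n → ℝ) → Bool} (hB : IsPreconnected B)
    (h : ∀ y ∈ B, ∀ᶠ y' in 𝓝[B] y, g y' = g y) {q z : Fin n → ℝ} (hq : q ∈ B) (hz : z ∈ B) :
    g q = g z := by
  have hc : ContinuousOn g B := by
    intro y hy
    rw [ContinuousWithinAt, nhds_discrete, tendsto_pure]
    exact h y hy
  exact hB.constant hc hq hz

end Pool.Agent.Y364.E3
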