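import Mathlib
import Pool.Agent.H774R3.ScM
import Pool.Agent.W556.CapCover

set_option autoImplicit false

/-!
# Punctured neighbourhoods in a closed 3-ball
-/

open Set Filter Topology Metric Module

namespace Pool.Agent.Y364.E3

/-- the Euclidean space -/
abbrev R3 : Type := EuclideanSpace ℝ (Fin 3)

theorem sc_compl_zero : SimplyConnectedSpace ({0}ᶜ : Set R3) := by
  have h1 : SimplyConnectedSpace (sphere (0 : R3) 1) :=
    Pool.Agent.Helper206.BoxS.Sph.simplyConnected_sphere (by simp)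
  have h2 := H774R3.sc_ioi
  have h3 := H774R3.sc_prod (sphere (0 : R3) 1) (Set.Ioi (0 : ℝ))
  exact (homeomorphUnitSphereProd R3).toHomotopyEquiv.simplyConnectedSpace

theorem sc_ball (p : R3) {r : ℝ} (hr : 0 < r) : IsSimplyConnected (ball p r \ {p}) := by
  have h1 : IsSimplyConnected ({0}ᶜ : Set R3) := sc_compl_zero
  have hs : (OpenPartialHomeomorph.univBall (E := R3) p r).source = univ :=
    OpenPartialHomeomorph.univBall_source p r
  have ht : (OpenPartialHomeomorph.univBall (E := R3) p r).target = ball p r :=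
    OpenPartialHomeomorph.univBall_target p hr
  have h0 : (OpenPartialHomeomorph.univBall (E := R3) p r) 0 = p :=
    OpenPartialHomeomorph.univBall_apply_zero p r
  have hemb := (OpenPartialHomeomorph.univBall (E := R3) p r).isOpenEmbedding hs
  have himg : (OpenPartialHomeomorph.univBall (E := R3) p r) '' {0}ᶜ = ball p r \ {p} := by
    rw [Set.image_compl_eq_range_sdiff_image hemb.injective, image_singleton, h0, ← ht,
      ← (OpenPartialHomeomorph.univBall (E := R3) p r).image_source_eq_target, hs, image_univ]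
  rw [← himg]
  exact hemb.isEmbedding.isSimplyConnected_image.2 h1

theorem punct (p : R3) (hp : ‖p‖ ≤ 1) {ε : ℝ} (hε : 0 < ε) : ∃ r, 0 < r ∧ r ≤ ε ∧
    SimplyConnectedSpace ((closedBall (0 : R3) 1 ∩ ball p r) \ {p} : Set R3) ∧
    LocallyPathConnectedSpace ((closedBall (0 : R3) 1 ∩ ball p r) \ {p} : Set R3) := by
  rcases lt_or_eq_of_le hp with hlt | heq
  · refine ⟨min ε (1 - ‖p‖), lt_min hε (by linarith), min_le_left _ _, ?_⟩
    have hsub : closedBall (0 : R3) 1 ∩ ball p (min ε (1 - ‖p‖)) = ball p (min ε (1 - ‖p‖)) := by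
      apply inter_eq_right.2
      intro y hy
      rw [mem_ball, dist_eq_norm] at hy
      rw [mem_closedBall_zero_iff]
      have h1 : ‖y - p‖ < 1 - ‖p‖ := lt_of_lt_of_le hy (min_le_right _ _)
      have h2 : ‖y‖ ≤ ‖y - p‖ + ‖p‖ := by
        have := norm_add_le (y - p) p
        rwa [sub_add_cancel] at this
      linarith
    rw [hsub]
    refine ⟨sc_ball p (lt_min hε (by linarith)), ?_⟩
    have : IsOpen (ball p (min ε (1 - ‖p‖)) \ {p}) := isOpen_ball.sdiff isClosed_singleton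
    exact this.locallyPathConnectedSpace
  · refine ⟨ε, hε, le_rfl, ?_⟩
    have hext : p ∈ (closedBall (0 : R3) 1).extremePoints ℝ :=
      StrictConvexSpace.sphere_subset_extremePoints_closedBall (0 : R3) one_ne_zero (by
        rw [mem_sphere_zero_iff_norm]; exact heq)
    have h1 : Convex ℝ (closedBall (0 : R3) 1 \ {p}) :=
      ((convex_closedBall (0 : R3) 1).mem_extremePoints_iff_convex_sdiff.1 hext).2
    have h2 : (closedBall (0 : R3) 1 ∩ ball p ε) \ {p} =
        (closedBall (0 : R3) 1 \ {p}) ∩ ball p ε := by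
      ext y
      simp only [Set.mem_sdiff, mem_inter_iff]
      tauto
    have h3 : Convex ℝ ((closedBall (0 : R3) 1 ∩ ball p ε) \ {p}) := by
      rw [h2]
      exact h1.inter (convex_ball p ε)
    have h4 : ((closedBall (0 : R3) 1 ∩ ball p ε) \ {p}).Nonempty := by
      set t : ℝ := min (ε / 2) 1 with ht
      have ht0 : 0 < t := lt_min (by linarith) one_pos
      have ht1 : t ≤ 1 := min_le_right _ _
      have ht2 : t ≤ ε / 2 := min_le_left _ _
      refine ⟨(1 - t) • p, ⟨?_, ?_⟩, ?_⟩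
      · rw [mem_closedBall_zero_iff, norm_smul, heq, Real.norm_eq_abs, abs_of_nonneg (by linarith)]
        linarith
      · rw [mem_ball, dist_eq_norm, sub_smul, one_smul, sub_sub_cancel_left, norm_neg, norm_smul,
          heq, Real.norm_eq_abs, abs_of_pos ht0]
        linarith
      · intro h
        rw [mem_singleton_iff, sub_smul, one_smul, sub_eq_self, smul_eq_zero] at h
        rcases h with h | h
        · exact ht0.ne' h
        · rw [h, norm_zero] at heq
          exact zero_ne_one heq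
    have h5 : ContractibleSpace ((closedBall (0 : R3) 1 ∩ ball p ε) \ {p} : Set R3) :=
      h3.contractibleSpace h4
    exact ⟨inferInstance, h3.locallyPathConnectedSpace⟩

/-- a set on which local sign functions can be made global -/
def Sg {E : Type} [TopologicalSpace E] (B : Set E) : Prop :=
  ∀ (U : E → Set E) (s : E → E → Bool), (∀ i ∈ B, i ∈ U i) →
    (∀ i ∈ B, ∀ x ∈ B, x ∈ U i → ∀ᶠ y in 𝓝[B] x, y ∈ U i) →
    (∀ i ∈ B, ∀ j ∈ B, ∀ x ∈ B, x ∈ U i → x ∈ U j →
      ∀ᶠ y in 𝓝[B] x, xor (s i y) (s j y) = xor (s i x) (s j x)) →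
    ∃ σ : E → Bool, ∀ i ∈ B, ∀ x ∈ B, x ∈ U i →
      ∀ᶠ y in 𝓝[B] x, xor (σ y) (s i y) = xor (σ x) (s i x)

theorem sg_of_sc {E : Type} [TopologicalSpace E] (B : Set E) [SimplyConnectedSpace B]
    [LocallyPathConnectedSpace B] : Sg B := by
  classical
  intro U s h1 h2 h3
  obtain ⟨σ, hσ⟩ := W556.Cap.exists_global_sign (B := B)
    (fun b => {x : B | (x : E) ∈ U b}) (fun i x => s i x)
    (fun b => by
      rw [isOpen_iff_mem_nhds]
      intro x hx
      have := h2 b b.2 x x.2 hx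
      rw [mem_nhds_subtype_iff_nhdsWithin]
      filter_upwards [this, self_mem_nhdsWithin] with y hy hyB
      exact ⟨⟨y, hyB⟩, hy, rfl⟩)
    (fun b => h1 b b.2)
    (fun i j x hx => by
      have := h3 i i.2 j j.2 x x.2 hx.1 hx.2
      rw [nhds_subtype_eq_comap_nhdsWithin]
      exact Filter.eventually_comap.2 (this.mono (by
        rintro y hy z rfl
        exact hy)))
  refine ⟨fun x => if h : x ∈ B then σ ⟨x, h⟩ else false, fun i hi x hx hxU => ?_⟩
  have h4 := hσ ⟨i, hi⟩ ⟨x, hx⟩ hxU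
  rw [nhds_subtype_eq_comap_nhdsWithin, Filter.eventually_comap] at h4
  filter_upwards [h4, self_mem_nhdsWithin] with y hy hyB
  rw [dif_pos hx, dif_pos hyB]
  exact hy ⟨y, hyB⟩ rfl

/-- The punctured neighbourhoods of the points of a space that is homeomorphic to the 3-ball. -/
theorem exists_punct {E : Type} [MetricSpace E] {X : Set E} (e : X ≃ₜ closedBall (0 : R3) 1)
    {x0 : E} (hx0 : x0 ∈ X) {O : Set E} (hO : O ∈ 𝓝 x0) :
    ∃ B : Set E, B ⊆ X ∧ B ⊆ O ∧ x0 ∉ B ∧ (∃ δ > 0, ∀ y ∈ X, y ≠ x0 → dist y x0 < δ → y ∈ B) ∧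
      IsPreconnected B ∧ Sg B ∧ ∀ x ∈ B, 𝓝[B] x = 𝓝[X] x := by
  set p : R3 := (e ⟨x0, hx0⟩ : R3) with hp
  have hp1 : ‖p‖ ≤ 1 := by
    have := (e ⟨x0, hx0⟩).2
    rwa [mem_closedBall_zero_iff] at this
  -- the neighbourhood corresponding to `O`
  have h1 : {c : closedBall (0 : R3) 1 | (e.symm c : E) ∈ O} ∈ 𝓝 (e ⟨x0, hx0⟩) := by
    have h2 : ContinuousAt (fun c => (e.symm c : E)) (e ⟨x0, hx0⟩) :=
      (continuous_subtype_val.comp e.symm.continuous).continuousAt
    apply h2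
    show O ∈ 𝓝 ((e.symm (e ⟨x0, hx0⟩) : X) : E)
    rw [e.symm_apply_apply]
    exact hO
  obtain ⟨ε, hε, hε1⟩ := Metric.mem_nhds_iff.1 h1
  obtain ⟨r, hr, hrε, hsc, hlp⟩ := punct p hp1 hε
  set S : Set R3 := (closedBall (0 : R3) 1 ∩ ball p r) \ {p} with hS
  let f : S → E := fun s => (e.symm ⟨s, s.2.1.1⟩ : E)
  have hf : Topology.IsEmbedding f := by
    have h3 : Topology.IsEmbedding (fun s : S => (⟨s, s.2.1.1⟩ : closedBall (0 : R3) 1)) :=
      Topology.IsEmbedding.inclusion (fun s hs => hs.1.1)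
    exact Topology.IsEmbedding.subtypeVal.comp (e.symm.isEmbedding.comp h3)
  let h : S ≃ₜ range f := hf.toHomeomorph
  have hsc' : SimplyConnectedSpace (range f) := h.symm.toHomotopyEquiv.simplyConnectedSpace
  have hlp' : LocallyPathConnectedSpace (range f) := h.symm.isOpenEmbedding.locallyPathConnectedSpace
  have hmem : ∀ y, y ∈ range f ↔ ∃ h : y ∈ X, (e ⟨y, h⟩ : R3) ∈ ball p r ∧ y ≠ x0 := by
    intro y
    constructor
    · rintro ⟨s, rfl⟩
      refine ⟨(e.symm ⟨s, s.2.1.1⟩).2, ?_, ?_⟩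
      · show ((e (e.symm ⟨s, s.2.1.1⟩) : closedBall (0 : R3) 1) : R3) ∈ ball p r
        rw [e.apply_symm_apply]
        exact s.2.1.2
      · intro hy
        apply s.2.2
        have h4 : e.symm ⟨s, s.2.1.1⟩ = ⟨x0, hx0⟩ := Subtype.ext hy
        rw [mem_singleton_iff, hp, ← h4, e.apply_symm_apply]
    · rintro ⟨hy, h5, h6⟩
      refine ⟨⟨e ⟨y, hy⟩, ⟨(e ⟨y, hy⟩).2, h5⟩, ?_⟩, ?_⟩
      · intro h7
        rw [mem_singleton_iff, hp] at h7
        have := e.injective (Subtype.ext h7)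
        exact h6 (congrArg Subtype.val this)
      · show ((e.symm (e ⟨y, hy⟩) : X) : E) = y
        rw [e.symm_apply_apply]
  have hev : ∀ x (hx : x ∈ X), (e ⟨x, hx⟩ : R3) ∈ ball p r →
      ∀ᶠ y in 𝓝[X] x, ∃ h : y ∈ X, (e ⟨y, h⟩ : R3) ∈ ball p r := by
    intro x hx hxr
    have h8 : ContinuousAt (fun y : X => (e y : R3)) ⟨x, hx⟩ :=
      (continuous_subtype_val.comp e.continuous).continuousAt
    have h9 : ∀ᶠ y : X in 𝓝 ⟨x, hx⟩, (e y : R3) ∈ ball p r :=
      h8 (isOpen_ball.mem_nhds hxr)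
    rw [nhds_subtype_eq_comap_nhdsWithin, Filter.eventually_comap] at h9
    filter_upwards [h9, self_mem_nhdsWithin] with y hy hyX
    exact ⟨hyX, hy ⟨y, hyX⟩ rfl⟩
  refine ⟨range f, ?_, ?_, ?_, ?_, ?_, sg_of_sc _, ?_⟩
  · intro y hy
    obtain ⟨h, -⟩ := (hmem y).1 hy
    exact h
  · rintro y ⟨s, rfl⟩
    have : (⟨s, s.2.1.1⟩ : closedBall (0 : R3) 1) ∈ ball (e ⟨x0, hx0⟩) ε := by
      rw [mem_ball, Subtype.dist_eq]
      have := s.2.1.2
      rw [mem_ball] at this
      exact lt_of_lt_of_le this hrε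
    exact hε1 this
  · intro hx
    obtain ⟨-, -, h⟩ := (hmem x0).1 hx
    exact h rfl
  · have := hev x0 hx0 (mem_ball_self hr)
    rw [Filter.eventually_iff, Metric.mem_nhdsWithin_iff] at this
    obtain ⟨δ, hδ, h10⟩ := this
    refine ⟨δ, hδ, fun y hy hne hd => (hmem y).2 ?_⟩
    obtain ⟨h, h11⟩ := h10 ⟨hd, hy⟩
    exact ⟨h, h11, hne⟩
  · have : IsPathConnected (range f) := isPathConnected_iff_pathConnectedSpace.2 inferInstance
    exact this.isConnected.isPreconnected
  · intro x hx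
    apply le_antisymm
    · apply nhdsWithin_mono
      intro y hy
      obtain ⟨h, -⟩ := (hmem y).1 hy
      exact h
    · obtain ⟨h12, h13, h14⟩ := (hmem x).1 hx
      have h15 := hev x h12 h13
      have h16 : ∀ᶠ y in 𝓝[X] x, y ≠ x0 :=
        mem_nhdsWithin_of_mem_nhds (isOpen_compl_singleton.mem_nhds (show x ∈ ({x0} : Set E)ᶜ from h14))
      apply le_inf inf_le_left
      rw [le_principal_iff]
      filter_upwards [h15, h16] with y hy1 hy2
      obtain ⟨h17, h18⟩ := hy1
      exact (hmem y).2 ⟨h17, h18, hy2⟩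

end Pool.Agent.Y364.E3
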