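import Mathlib
import Pool.Agent.Y364.E3.Top
import Pool.Agent.Y364.E3.Loc

set_option autoImplicit false

/-!
# The facets around a face of a triangulated 3-ball are connected
-/

open Filter Topology Finset Metric Pool.Agent.H933R3

namespace Pool.Agent.Y364.E3

variable {n : ℕ} {K : Finset (Finset (Fin n))}

theorem conn_anti {A B X Y : Finset (Fin n)} (hAB : A ⊆ B) (h : Conn K B X Y) : Conn K A X Y := by
  refine Relation.ReflTransGen.mono ?_ _ _ h
  rintro X Y ⟨hX, hY, R, hR, h3, h4⟩
  exact ⟨hX, hY, R, hR, hAB.trans h3, h4⟩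

theorem conn_symm {A X Y : Finset (Fin n)} (h : Conn K A X Y) : Conn K A Y X := by
  induction h with
  | refl => exact Relation.ReflTransGen.refl
  | tail _ hs ih =>
    obtain ⟨hX, hY, R, hR, h3, h4, h5⟩ := hs
    exact (Relation.ReflTransGen.single ⟨hY, hX, R, hR, h3, h5, h4⟩).trans ih

/-- the facets around `τ` are connected -/
def CP (K : Finset (Finset (Fin n))) (τ : Finset (Fin n)) : Prop :=
  ∀ X Y, IsFacet K X → IsFacet K Y → τ ⊆ X → τ ⊆ Y → Conn K τ X Y

/-- membership in the class of `F` -/
noncomputable def cls (K : Finset (Finset (Fin n))) (A F : Finset (Fin n)) (y : Fin n → ℝ) :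
    Bool := by
  classical exact decide (∃ X, IsFacet K X ∧ supp y ⊆ X ∧ Conn K A F X)

theorem cls_iff {A F X : Finset (Fin n)} {y : Fin n → ℝ} (hA : A ⊆ supp y) (hP : CP K (supp y))
    (hX : IsFacet K X) (hy : supp y ⊆ X) : cls K A F y = true ↔ Conn K A F X := by
  classical
  rw [cls, decide_eq_true_iff]
  constructor
  · rintro ⟨Y, hY, h1, h2⟩
    exact h2.trans (conn_anti hA (hP Y X hY hX h1 hy))
  · intro h
    exact ⟨X, hX, hy, h⟩

theorem cls_const (hK : IsCx K) {A F : Finset (Fin n)} {y : Fin n → ℝ} (hA : A ⊆ supp y)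
    (hP : CP K (supp y)) : ∀ᶠ y' in 𝓝[realization K] y, cls K A F y' = cls K A F y := by
  have h1 : ∀ᶠ y' in 𝓝[realization K] y, supp y ⊆ supp y' :=
    mem_nhdsWithin_of_mem_nhds (supp_mono y)
  filter_upwards [h1, self_mem_nhdsWithin] with y' hy' hyK
  obtain ⟨X, hX, hyX⟩ := exists_facet (supp_mem hK hyK)
  have h2 := cls_iff (F := F) hA hP hX (hy'.trans hyX)
  have h3 : cls K A F y' = true ↔ Conn K A F X := by
    classical
    rw [cls, decide_eq_true_iff]
    constructor
    · rintro ⟨Y, hY, h1, h2⟩
      exact h2.trans (conn_anti hA (hP Y X hY hX (hy'.trans h1) (hy'.trans hyX)))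
    · intro h
      exact ⟨X, hX, hyX, h⟩
  rw [Bool.eq_iff_iff, h3, h2]

theorem conn_of_pre (hK : IsCx K) {A F F' : Finset (Fin n)} {B : Set (Fin n → ℝ)}
    (hB : B ⊆ realization K) (hBc : IsPreconnected B)
    (hP : ∀ y ∈ B, A ⊆ supp y ∧ CP K (supp y)) (hF : IsFacet K F) (hF' : IsFacet K F')
    {z z' : Fin n → ℝ} (hz : z ∈ B) (hz' : z' ∈ B) (h : supp z = F) (h' : supp z' = F') :
    Conn K A F F' := by
  have h1 : cls K A F z = cls K A F z' := by
    refine pre_const hBc (fun y hy => ?_) hz hz'
    have := cls_const (F := F) hK (hP y hy).1 (hP y hy).2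
    exact this.filter_mono (nhdsWithin_mono _ hB)
  have h2 : cls K A F z = true :=
    (cls_iff (hP z hz).1 (hP z hz).2 hF h.subset).2 Relation.ReflTransGen.refl
  rw [h1] at h2
  exact (cls_iff (hP z' hz').1 (hP z' hz').2 hF' h'.subset).1 h2

theorem cp_big (hp : ∀ F, IsFacet K F → F.card = 4) {τ : Finset (Fin n)} (h : 3 ≤ τ.card) :
    CP K τ := by
  intro X Y hX hY h1 h2
  rcases eq_or_lt_of_le h with h3 | h3
  · exact Relation.ReflTransGen.single ⟨hX, hY, τ, h3.symm, Subset.refl _, h1, h2⟩
  · have e1 : τ = X := eq_of_subset_of_card_le h1 (by rw [hp X hX]; exact h3)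
    have e2 : τ = Y := eq_of_subset_of_card_le h2 (by rw [hp Y hY]; exact h3)
    rw [← e1, ← e2]
    exact Relation.ReflTransGen.refl

/-! ### edges -/

theorem cp_edge (hK : IsCx K) (hp : ∀ F, IsFacet K F → F.card = 4)
    (e : realization K ≃ₜ closedBall (0 : R3) 1) {A : Finset (Fin n)} (hA : A ∈ K)
    (hc : A.card = 2) : CP K A := by
  classical
  intro F F' hF hF' hAF hAF'
  by_contra hcon
  obtain ⟨a, b, hab, hAab⟩ := card_eq_two.1 hc
  have hne : A.Nonempty := card_pos.1 (by omega)
  have haA : a ∈ A := by rw [hAab]; simp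
  have hbA : b ∈ A := by rw [hAab]; simp
  set x0 := bary A with hx0
  have hx0X : x0 ∈ realization K := bary_mem hA hne
  have hx0s : supp x0 = A := supp_bary A
  have hx0v : ∀ i ∈ A, x0 i = 1 / 2 := by
    intro i hi
    rw [hx0]
    unfold bary
    rw [if_pos hi, hc]
    norm_num
  obtain ⟨B, hBX, hBO, hx0B, ⟨δ, hδ, hδB⟩, hBc, hSg, hnh⟩ :=
    exists_punct e hx0X (O := {y | supp x0 ⊆ supp y}) (supp_mono x0)
  have hBA : ∀ y ∈ B, A ⊆ supp y := fun y hy => hx0s ▸ hBO hy
  have hside : ∀ y ∈ B, supp y = A → y a ≠ 1 / 2 := by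
    intro y hy hs h1
    apply hx0B
    have h2 := sum_supp (hBX hy)
    rw [hs, hAab, sum_pair hab, h1] at h2
    have : x0 = y := by
      funext i
      by_cases hi : i ∈ A
      · rw [hx0v i hi]
        rw [hAab, mem_insert, mem_singleton] at hi
        rcases hi with rfl | rfl
        · exact h1.symm
        · linarith
      · have h3 : x0 i = 0 := by
          by_contra hn
          exact hi (hx0s ▸ mem_supp.2 hn)
        have h4 : y i = 0 := by
          by_contra hn
          exact hi (hs ▸ mem_supp.2 hn)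
        rw [h3, h4]
    rw [this]
    exact hy
  -- the two open sets
  let Up : Set (Fin n → ℝ) := {y | ¬ (supp y = A ∧ y a < 1 / 2)}
  let Um : Set (Fin n → ℝ) := {y | ¬ (supp y = A ∧ 1 / 2 < y a)}
  let md : (Fin n → ℝ) → Prop := fun i => supp i = A ∧ 1 / 2 < i a
  have hUp : ∀ x ∈ B, x ∈ Up → ∀ᶠ y in 𝓝[B] x, y ∈ Up := by
    intro x hx hxU
    by_cases hs : supp x = A
    · have h1 : 1 / 2 < x a := by
        rcases lt_trichotomy (x a) (1 / 2) with h | h | h
        · exact absurd ⟨hs, h⟩ hxU
        · exact absurd h (hside x hx hs)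
        · exact h
      have h2 : ∀ᶠ y : Fin n → ℝ in 𝓝 x, 1 / 2 < y a :=
        (continuous_apply a).continuousAt.eventually (lt_mem_nhds h1)
      filter_upwards [mem_nhdsWithin_of_mem_nhds h2] with y hy h3
      linarith [h3.2]
    · filter_upwards [mem_nhdsWithin_of_mem_nhds (supp_mono x), self_mem_nhdsWithin] with y hy hyB h3
      apply hs
      exact Subset.antisymm (hy.trans h3.1.subset) (hBA x hx)
  have hUm : ∀ x ∈ B, x ∈ Um → ∀ᶠ y in 𝓝[B] x, y ∈ Um := by
    intro x hx hxU
    by_cases hs : supp x = A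
    · have h1 : x a < 1 / 2 := by
        rcases lt_trichotomy (x a) (1 / 2) with h | h | h
        · exact h
        · exact absurd h (hside x hx hs)
        · exact absurd ⟨hs, h⟩ hxU
      have h2 : ∀ᶠ y : Fin n → ℝ in 𝓝 x, y a < 1 / 2 :=
        (continuous_apply a).continuousAt.eventually (gt_mem_nhds h1)
      filter_upwards [mem_nhdsWithin_of_mem_nhds h2] with y hy h3
      linarith [h3.2]
    · filter_upwards [mem_nhdsWithin_of_mem_nhds (supp_mono x), self_mem_nhdsWithin] with y hy hyB h3
      apply hs
      exact Subset.antisymm (hy.trans h3.1.subset) (hBA x hx)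
  let sp : (Fin n → ℝ) → Bool := fun y => if supp y = A then false else cls K A F y
  have hsp : ∀ x ∈ B, supp x ≠ A → ∀ᶠ y in 𝓝[B] x, sp y = sp x := by
    intro x hx hs
    have h1 : 3 ≤ (supp x).card := by
      have h2 : A ⊂ supp x := Finset.ssubset_iff_subset_ne.2 ⟨hBA x hx, fun h => hs h.symm⟩
      have := card_lt_card h2
      omega
    have h3 := cls_const (F := F) hK (hBA x hx) (cp_big hp h1)
    have h4 := h3.filter_mono (nhdsWithin_mono _ hBX)
    filter_upwards [mem_nhdsWithin_of_mem_nhds (supp_mono x), h4] with y hy hyc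
    have h5 : supp y ≠ A := fun h => hs (Subset.antisymm (hy.trans h.subset) (hBA x hx))
    show (if supp y = A then false else cls K A F y) = (if supp x = A then false else cls K A F x)
    rw [if_neg h5, if_neg hs, hyc]
  obtain ⟨σ, hσ⟩ := hSg (fun i => if md i then Up else Um)
    (fun i y => if md i then sp y else false)
    (fun i hi => by
      by_cases h : md i
      · rw [if_pos h]
        intro h2
        linarith [h.2, h2.2]
      · rw [if_neg h]
        exact h)
    (fun i hi x hx hxU => by
      by_cases h : md i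
      · rw [if_pos h] at hxU ⊢
        exact hUp x hx hxU
      · rw [if_neg h] at hxU ⊢
        exact hUm x hx hxU)
    (fun i hi j hj x hx hxi hxj => by
      have key : x ∈ Up → x ∈ Um → ∀ᶠ y in 𝓝[B] x, sp y = sp x := by
        intro h1 h2
        apply hsp x hx
        intro hs
        rcases lt_trichotomy (x a) (1 / 2) with h | h | h
        · exact h1 ⟨hs, h⟩
        · exact hside x hx hs h
        · exact h2 ⟨hs, h⟩
      by_cases h : md i <;> by_cases h' : md j
      · filter_upwards with y
        simp only [if_pos h, if_pos h', Bool.xor_self]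
      · rw [if_pos h] at hxi
        rw [if_neg h'] at hxj
        filter_upwards [key hxi hxj] with y hy
        simp only [if_pos h, if_neg h', hy]
      · rw [if_neg h] at hxi
        rw [if_pos h'] at hxj
        filter_upwards [key hxj hxi] with y hy
        simp only [if_neg h, if_pos h', hy]
      · filter_upwards with y
        simp only [if_neg h, if_neg h'])
  -- the test points
  obtain ⟨z, hzX, hzs, hzd⟩ := exists_point hK hx0X hF.1 (hx0s.subset.trans hAF) hδ
  obtain ⟨z', hzX', hzs', hzd'⟩ := exists_point hK hx0X hF'.1 (hx0s.subset.trans hAF') hδ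
  have hq : ∀ η : ℝ, |η| < min (1 / 2) δ → η ≠ 0 →
      ∃ q ∈ B, supp q = A ∧ q a = 1 / 2 + η ∧ dist q x0 < δ := by
    intro η hη hη0
    have h1 : |η| < 1 / 2 := lt_of_lt_of_le hη (min_le_left _ _)
    have h2 : |η| < δ := lt_of_lt_of_le hη (min_le_right _ _)
    have h3 := abs_lt.1 h1
    let q : Fin n → ℝ := fun i => if i = a then 1 / 2 + η else if i = b then 1 / 2 - η else 0
    have hqa : q a = 1 / 2 + η := if_pos rfl
    have hqb : q b = 1 / 2 - η := by
      show (if b = a then 1 / 2 + η else if b = b then 1 / 2 - η else 0) = 1 / 2 - η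
      rw [if_neg hab.symm, if_pos rfl]
    have hq0 : ∀ i, i ≠ a → i ≠ b → q i = 0 := by
      intro i h4 h5
      show (if i = a then 1 / 2 + η else if i = b then 1 / 2 - η else 0) = 0
      rw [if_neg h4, if_neg h5]
    have hqs : supp q = A := by
      ext i
      rw [mem_supp, hAab, mem_insert, mem_singleton]
      constructor
      · intro h4
        by_contra hn
        push Not at hn
        exact h4 (hq0 i hn.1 hn.2)
      · rintro (rfl | rfl)
        · rw [hqa]; linarith
        · rw [hqb]; linarith
    have hqX : q ∈ realization K := by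
      refine mem_real hA ?_ ?_ hqs.subset
      · intro i
        by_cases h4 : i = a
        · rw [h4, hqa]; linarith
        · by_cases h5 : i = b
          · rw [h5, hqb]; linarith
          · rw [hq0 i h4 h5]
      · have h4 : ∑ i, q i = ∑ i ∈ ({a, b} : Finset (Fin n)), q i := by
          symm
          apply sum_subset (subset_univ _)
          intro i _ hi
          rw [mem_insert, mem_singleton] at hi
          push Not at hi
          exact hq0 i hi.1 hi.2
        rw [h4, sum_pair hab, hqa, hqb]
        ring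
    have hqd : dist q x0 < δ := by
      rw [dist_pi_lt_iff hδ]
      intro i
      by_cases h4 : i = a
      · rw [h4, hqa, hx0v a haA, Real.dist_eq]
        have : 1 / 2 + η - 1 / 2 = η := by ring
        rw [this]
        exact h2
      · by_cases h5 : i = b
        · rw [h5, hqb, hx0v b hbA, Real.dist_eq]
          have : 1 / 2 - η - 1 / 2 = -η := by ring
          rw [this, abs_neg]
          exact h2
        · rw [hq0 i h4 h5]
          have h6 : x0 i = 0 := by
            by_contra hn
            have := hx0s ▸ mem_supp.2 hn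
            rw [hAab, mem_insert, mem_singleton] at this
            rcases this with h | h
            · exact h4 h
            · exact h5 h
          rw [h6, dist_self]
          exact hδ
    have hqn : q ≠ x0 := by
      intro h
      have h4 := congrFun h a
      rw [hqa, hx0v a haA] at h4
      apply hη0
      linarith
    exact ⟨q, hδB q hqX hqn hqd, hqs, hqa, hqd⟩
  have hmin : 0 < min (1 / 2) δ := lt_min (by norm_num) hδ
  obtain ⟨q, hqB, hqs, hqa, hqd⟩ := hq (min (1 / 2) δ / 2) (by
    rw [abs_of_pos (by linarith)]; linarith) (by linarith)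
  obtain ⟨q', hqB', hqs', hqa', hqd'⟩ := hq (-(min (1 / 2) δ / 2)) (by
    rw [abs_neg, abs_of_pos (by linarith)]; linarith) (by linarith)
  -- the segments
  have hseg : ∀ r ∈ B, supp r = A → dist r x0 < δ → ∀ w ∈ realization K, ∀ G, IsFacet K G →
      A ⊆ G → supp w = G → dist w x0 < δ → ∀ y ∈ segment ℝ r w, y ∈ B ∧ (y = r ∨ supp y = G) := by
    intro r hrB hrs hrd w hwX G hG hAG hws hwd y hy
    obtain ⟨h1, h2⟩ := seg_mem hK (hBX hrB) hwX (by rw [hrs, hws]; exact hAG) hy
    have h3 := seg_dist hrd hwd hy
    rcases h2 with h2 | h2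
    · rw [h2]
      exact ⟨hrB, Or.inl rfl⟩
    · have h4 : y ≠ x0 := by
        intro h
        have h5 : A = G := by rw [← hx0s, ← h, h2, hws]
        have := hp G hG
        rw [← h5, hc] at this
        omega
      exact ⟨hδB y h1 h4 h3, Or.inr (h2.trans hws)⟩
  have hneA : ∀ G, IsFacet K G → G ≠ A := by
    intro G hG h
    have := hp G hG
    rw [h, hc] at this
    omega
  have hzz : ∀ w ∈ realization K, ∀ G, IsFacet K G → A ⊆ G → supp w = G → dist w x0 < δ →
      w ∈ B := by
    intro w hwX G hG hAG hws hwd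
    refine hδB w hwX ?_ hwd
    intro h
    apply hneA G hG
    rw [← hws, h, hx0s]
  -- on the minus side
  have hminus : ∀ w ∈ realization K, ∀ G, IsFacet K G → A ⊆ G → supp w = G → dist w x0 < δ →
      σ q' = σ w := by
    intro w hwX G hG hAG hws hwd
    refine seg_const (B := B) (fun y hy => ?_)
    obtain ⟨h1, h2⟩ := hseg q' hqB' hqs' hqd' w hwX G hG hAG hws hwd y hy
    refine ⟨h1, ?_⟩
    have hmd : ¬ md q' := fun h => by
      have := h.2
      rw [hqa'] at this
      linarith
    have hyU : y ∈ Um := by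
      intro h3
      rcases h2 with h2 | h2
      · rw [h2, hqa'] at h3
        linarith [h3.2]
      · exact hneA G hG (h2.symm.trans h3.1)
    have h4 := hσ q' hqB' y h1 (by rw [if_neg hmd]; exact hyU)
    filter_upwards [h4] with y' hy'
    simpa only [if_neg hmd, Bool.xor_false] using hy'
  have hplus : ∀ w ∈ realization K, ∀ G, IsFacet K G → A ⊆ G → supp w = G → dist w x0 < δ →
      xor (σ q) (sp q) = xor (σ w) (sp w) := by
    intro w hwX G hG hAG hws hwd
    refine seg_const (B := B) (g := fun y => xor (σ y) (sp y)) (fun y hy => ?_)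
    obtain ⟨h1, h2⟩ := hseg q hqB hqs hqd w hwX G hG hAG hws hwd y hy
    refine ⟨h1, ?_⟩
    have hmd : md q := ⟨hqs, by rw [hqa]; linarith⟩
    have hyU : y ∈ Up := by
      intro h3
      rcases h2 with h2 | h2
      · rw [h2, hqa] at h3
        linarith [h3.2]
      · exact hneA G hG (h2.symm.trans h3.1)
    have h4 := hσ q hqB y h1 (by rw [if_pos hmd]; exact hyU)
    filter_upwards [h4] with y' hy'
    simpa only [if_pos hmd] using hy'
  have hsz : sp z = true := by
    show (if supp z = A then false else cls K A F z) = true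
    rw [if_neg (by rw [hzs]; exact hneA F hF)]
    exact (cls_iff (by rw [hzs]; exact hAF) (cp_big hp (by rw [hzs, hp F hF]; norm_num)) hF
      hzs.subset).2 Relation.ReflTransGen.refl
  have hsz' : sp z' = false := by
    show (if supp z' = A then false else cls K A F z') = false
    rw [if_neg (by rw [hzs']; exact hneA F' hF'), Bool.eq_false_iff]
    intro h
    exact hcon ((cls_iff (by rw [hzs']; exact hAF') (cp_big hp (by rw [hzs', hp F' hF']; norm_num))
      hF' hzs'.subset).1 h)
  have h1 := hminus z hzX F hF hAF hzs hzd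
  have h2 := hminus z' hzX' F' hF' hAF' hzs' hzd'
  have h3 := hplus z hzX F hF hAF hzs hzd
  have h4 := hplus z' hzX' F' hF' hAF' hzs' hzd'
  rw [h3, hsz, hsz', ← h1, ← h2] at h4
  cases h : σ q' <;> rw [h] at h4 <;> simp at h4

/-! ### vertices and the whole ball -/

theorem cp_vertex (hK : IsCx K) (hp : ∀ F, IsFacet K F → F.card = 4)
    (e : realization K ≃ₜ closedBall (0 : R3) 1) {A : Finset (Fin n)} (hA : A ∈ K)
    (hc : A.card = 1) : CP K A := by
  classical
  intro F F' hF hF' hAF hAF'
  have hne : A.Nonempty := card_pos.1 (by omega)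
  obtain ⟨v, hv⟩ := card_eq_one.1 hc
  set x0 := bary A with hx0
  have hx0X : x0 ∈ realization K := bary_mem hA hne
  have hx0s : supp x0 = A := supp_bary A
  obtain ⟨B, hBX, hBO, hx0B, ⟨δ, hδ, hδB⟩, hBc, hSg, hnh⟩ :=
    exists_punct e hx0X (O := {y | supp x0 ⊆ supp y}) (supp_mono x0)
  have hBA : ∀ y ∈ B, A ⊆ supp y := fun y hy => hx0s ▸ hBO hy
  have hBA2 : ∀ y ∈ B, supp y ≠ A := by
    intro y hy hs
    apply hx0B
    have h1 := sum_supp (hBX hy)
    rw [hs, hv, sum_singleton] at h1
    have h2 := sum_supp hx0X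
    rw [hx0s, hv, sum_singleton] at h2
    have : x0 = y := by
      funext i
      by_cases hi : i = v
      · rw [hi, h1, h2]
      · have h3 : x0 i = 0 := by
          by_contra hn
          have := hx0s ▸ mem_supp.2 hn
          rw [hv, mem_singleton] at this
          exact hi this
        have h4 : y i = 0 := by
          by_contra hn
          have := hs ▸ mem_supp.2 hn
          rw [hv, mem_singleton] at this
          exact hi this
        rw [h3, h4]
    rw [this]
    exact hy
  have hneA : ∀ G, IsFacet K G → G ≠ A := by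
    intro G hG h
    have := hp G hG
    rw [h, hc] at this
    omega
  obtain ⟨z, hzX, hzs, hzd⟩ := exists_point hK hx0X hF.1 (hx0s.subset.trans hAF) hδ
  obtain ⟨z', hzX', hzs', hzd'⟩ := exists_point hK hx0X hF'.1 (hx0s.subset.trans hAF') hδ
  refine conn_of_pre hK hBX hBc (fun y hy => ⟨hBA y hy, ?_⟩) hF hF'
    (hδB z hzX (fun h => hneA F hF (by rw [← hzs, h, hx0s])) hzd)
    (hδB z' hzX' (fun h => hneA F' hF' (by rw [← hzs', h, hx0s])) hzd') hzs hzs'
  have h2 : A ⊂ supp y := Finset.ssubset_iff_subset_ne.2 ⟨hBA y hy, fun h => hBA2 y hy h.symm⟩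
  have h3 := card_lt_card h2
  rcases Nat.lt_or_ge 2 (supp y).card with h4 | h4
  · exact cp_big hp h4
  · exact cp_edge hK hp e (supp_mem hK (hBX hy)) (by omega)

theorem real_preconnected (e : realization K ≃ₜ closedBall (0 : R3) 1) :
    IsPreconnected (realization K) := by
  have h1 : PreconnectedSpace (closedBall (0 : R3) 1) :=
    isPreconnected_iff_preconnectedSpace.1 (convex_closedBall (0 : R3) 1).isPreconnected
  have h2 : PreconnectedSpace (realization K) := by
    constructor
    have := h1.isPreconnected_univ.image e.symm e.symm.continuous.continuousOn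
    rwa [Set.image_univ, e.symm.surjective.range_eq] at this
  exact isPreconnected_iff_preconnectedSpace.2 h2

theorem cp_empty (hK : IsCx K) (hp : ∀ F, IsFacet K F → F.card = 4)
    (e : realization K ≃ₜ closedBall (0 : R3) 1) : CP K ∅ := by
  intro F F' hF hF' _ _
  have hnF : ∀ G, IsFacet K G → G.Nonempty := fun G hG => card_pos.1 (by rw [hp G hG]; norm_num)
  refine conn_of_pre hK (Set.Subset.refl _) (real_preconnected e)
    (fun y hy => ⟨empty_subset _, ?_⟩) hF hF' (bary_mem hF.1 (hnF F hF))
    (bary_mem hF'.1 (hnF F' hF')) (supp_bary F) (supp_bary F')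
  have h1 := card_pos.2 (supp_nonempty hy)
  have h2 := supp_mem hK hy
  rcases Nat.lt_or_ge 2 (supp y).card with h4 | h4
  · exact cp_big hp h4
  · rcases Nat.lt_or_ge 1 (supp y).card with h5 | h5
    · exact cp_edge hK hp e h2 (by omega)
    · exact cp_vertex hK hp e h2 (by omega)

theorem cp_all (hK : IsCx K) (hp : ∀ F, IsFacet K F → F.card = 4)
    (e : realization K ≃ₜ closedBall (0 : R3) 1) {A : Finset (Fin n)} (hA : A ∈ K) : CP K A := by
  rcases Nat.lt_or_ge 2 A.card with h4 | h4
  · exact cp_big hp h4
  · rcases Nat.lt_or_ge 1 A.card with h5 | h5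
    · exact cp_edge hK hp e hA (by omega)
    · rcases Nat.lt_or_ge 0 A.card with h6 | h6
      · exact cp_vertex hK hp e hA (by omega)
      · have : A = ∅ := card_eq_zero.1 (by omega)
        rw [this]
        exact cp_empty hK hp e

end Pool.Agent.Y364.E3
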