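import Mathlib
import Pool.Agent.Y364.E3.CnT

set_option autoImplicit false

/-!
# Colourings of the facets around a face
-/

open Filter Topology Finset Metric Pool.Agent.H933R3

namespace Pool.Agent.Y364.E3

variable {n : ℕ} {K : Finset (Finset (Fin n))}

/-- `c` changes exactly across the elements of `D` -/
def Chg (K D : Finset (Finset (Fin n))) (c : Finset (Fin n) → Bool) (R : Finset (Fin n)) : Prop :=
  ∀ F F', IsFacet K F → IsFacet K F' → F ≠ F' → R ⊆ F → R ⊆ F' → (c F ≠ c F' ↔ R ∈ D)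

open Classical in
theorem tree_col (htwo : AtMostTwo 3 K)
    {A : Finset (Fin n)} (hcp : CP K A) (D : Finset (Finset (Fin n))) :
    ∀ (m : ℕ) (𝓕 T : Finset (Finset (Fin n))) (c : Finset (Fin n) → Bool),
      (∀ F ∈ 𝓕, IsFacet K F ∧ A ⊆ F) → 𝓕.Nonempty → (∀ R ∈ T, IR K R ∧ A ⊆ R) →
      T.card + 1 = 𝓕.card → (∀ R ∈ T, ∀ F, IsFacet K F → R ⊆ F → F ∈ 𝓕) →
      (∀ R ∈ T, Chg K D c R) → (K.filter (fun F => IsFacet K F ∧ A ⊆ F ∧ F ∉ 𝓕)).card ≤ m →
      ∃ (T' : Finset (Finset (Fin n))) (c' : Finset (Fin n) → Bool),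
        (∀ R ∈ T', IR K R ∧ A ⊆ R) ∧
        T'.card + 1 = (K.filter (fun F => IsFacet K F ∧ A ⊆ F)).card ∧ ∀ R ∈ T', Chg K D c' R := by
  intro m
  induction m with
  | zero =>
    intro 𝓕 T c h1 h2 h3 h4 h5 h6 hm
    refine ⟨T, c, h3, ?_, h6⟩
    have : K.filter (fun F => IsFacet K F ∧ A ⊆ F) = 𝓕 := by
      ext F
      rw [mem_filter]
      constructor
      · rintro ⟨hF, hF1, hF2⟩
        by_contra hn
        rw [Nat.le_zero, card_eq_zero] at hm
        have : F ∈ K.filter (fun F => IsFacet K F ∧ A ⊆ F ∧ F ∉ 𝓕) :=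
          mem_filter.2 ⟨hF, hF1, hF2, hn⟩
        rw [hm] at this
        exact absurd this (notMem_empty _)
      · intro hF
        exact ⟨(h1 F hF).1.1, h1 F hF⟩
    rw [this]
    exact h4
  | succ m ih =>
    intro 𝓕 T c h1 h2 h3 h4 h5 h6 hm
    by_cases hall : ∀ F, IsFacet K F → A ⊆ F → F ∈ 𝓕
    · refine ⟨T, c, h3, ?_, h6⟩
      have : K.filter (fun F => IsFacet K F ∧ A ⊆ F) = 𝓕 := by
        ext F
        rw [mem_filter]
        exact ⟨fun h => hall F h.2.1 h.2.2, fun h => ⟨(h1 F h).1.1, h1 F h⟩⟩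
      rw [this]
      exact h4
    · push Not at hall
      obtain ⟨F1, hF1, hAF1, hn1⟩ := hall
      obtain ⟨F0, hF0⟩ := h2
      obtain ⟨X, Y, ⟨hX, hY, R, hR, hAR, hRX, hRY⟩, hX1, hY1⟩ :=
        first_step (P := fun F => F ∈ 𝓕) (hcp F0 F1 (h1 F0 hF0).1 hF1 (h1 F0 hF0).2 hAF1) hF0 hn1
      have hXY : X ≠ Y := fun e => hY1 (e ▸ hX1)
      have hRT : R ∉ T := fun h => hY1 (h5 R h Y hY hRY)
      let c' : Finset (Fin n) → Bool := fun Z => if Z = Y then (if R ∈ D then !(c X) else c X) else c Z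
      have hc'Y : c' Y = (if R ∈ D then !(c X) else c X) := if_pos rfl
      have hc'Z : ∀ Z, Z ≠ Y → c' Z = c Z := fun Z h => if_neg h
      have hnew : Chg K D c' R := by
        have key : c' X ≠ c' Y ↔ R ∈ D := by
          rw [hc'Y, hc'Z X hXY]
          by_cases hRD : R ∈ D
          · rw [if_pos hRD]
            cases c X <;> simp [hRD]
          · rw [if_neg hRD]
            simp [hRD]
        intro F F' hF hF' hne hRF hRF'
        have hFm : F = X ∨ F = Y := by
          rcases htwo R hR F X Y hF hX hY hRF hRX hRY with h | h | h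
          · exact Or.inl h
          · exact Or.inr h
          · exact absurd h hXY
        have hFm' : F' = X ∨ F' = Y := by
          rcases htwo R hR F' X Y hF' hX hY hRF' hRX hRY with h | h | h
          · exact Or.inl h
          · exact Or.inr h
          · exact absurd h hXY
        rcases hFm with rfl | rfl
        · rcases hFm' with rfl | rfl
          · exact absurd rfl hne
          · exact key
        · rcases hFm' with rfl | rfl
          · rw [ne_comm]
            exact key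
          · exact absurd rfl hne
      have hlt : (K.filter (fun F => IsFacet K F ∧ A ⊆ F ∧ F ∉ insert Y 𝓕)).card ≤ m := by
        have : (K.filter (fun F => IsFacet K F ∧ A ⊆ F ∧ F ∉ insert Y 𝓕)) ⊂
            (K.filter (fun F => IsFacet K F ∧ A ⊆ F ∧ F ∉ 𝓕)) := by
          refine ⟨fun F hF => ?_, fun hsub => ?_⟩
          · rw [mem_filter] at hF ⊢
            exact ⟨hF.1, hF.2.1, hF.2.2.1, fun h => hF.2.2.2 (mem_insert_of_mem h)⟩
          · have := hsub (mem_filter.2 ⟨hY.1, hY, hAR.trans hRY, hY1⟩)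
            rw [mem_filter] at this
            exact this.2.2.2 (mem_insert_self _ _)
        have := card_lt_card this
        omega
      refine ih (insert Y 𝓕) (insert R T) c' ?_ ⟨F0, mem_insert_of_mem hF0⟩ ?_ ?_ ?_ ?_ hlt
      · intro F hF
        rcases mem_insert.1 hF with rfl | hF
        · exact ⟨hY, hAR.trans hRY⟩
        · exact h1 F hF
      · intro R' hR'
        rcases mem_insert.1 hR' with rfl | hR'
        · exact ⟨⟨hR, X, Y, hX, hY, hXY, hRX, hRY⟩, hAR⟩
        · exact h3 R' hR'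
      · rw [card_insert_of_notMem hRT, card_insert_of_notMem hY1]
        omega
      · intro R' hR' F hF hRF
        rcases mem_insert.1 hR' with rfl | hR'
        · rcases htwo R' hR F X Y hF hX hY hRF hRX hRY with h | h | h
          · rw [h]; exact mem_insert_of_mem hX1
          · rw [h]; exact mem_insert_self _ _
          · exact absurd h hXY
        · exact mem_insert_of_mem (h5 R' hR' F hF hRF)
      · intro R' hR'
        rcases mem_insert.1 hR' with rfl | hR'
        · exact hnew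
        · intro F F' hF hF' hne hRF hRF'
          have e1 : F ≠ Y := fun h => hY1 (h ▸ h5 R' hR' F hF hRF)
          have e2 : F' ≠ Y := fun h => hY1 (h ▸ h5 R' hR' F' hF' hRF')
          rw [hc'Z F e1, hc'Z F' e2]
          exact h6 R' hR' F F' hF hF' hne hRF hRF'

theorem chg_zmod {D : Finset (Finset (Fin n))} {c : Finset (Fin n) → Bool}
    {R F F' : Finset (Fin n)} [Decidable (R ∈ D)] :
    (c F ≠ c F' ↔ R ∈ D) ↔
      ((if c F = true then 1 else 0 : ZMod 2) + (if c F' = true then 1 else 0) +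
        (if R ∈ D then 1 else 0) = 0) := by
  by_cases hR : R ∈ D <;> cases c F <;> cases c F' <;> simp [hR] <;> decide

open Classical in
theorem edge_col (hK : IsCx K) (hp : ∀ F, IsFacet K F → F.card = 4) (htwo : AtMostTwo 3 K)
    {A : Finset (Fin n)} (hA : A ∈ K) (hc : A.card = 2) (hcp : CP K A)
    (D : Finset (Finset (Fin n)))
    (hev : (∀ R ∈ K, R.card = 3 → A ⊆ R → IR K R) → Even (D.filter (fun R => A ⊆ R)).card)
    (hD : ∀ R ∈ D, IR K R) :
    ∃ c : Finset (Fin n) → Bool, ∀ R, IR K R → A ⊆ R → Chg K D c R := by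
  obtain ⟨F0, hF0, hAF0⟩ := exists_facet hA
  obtain ⟨T, c, hT1, hT2, hT3⟩ := tree_col htwo hcp D _ {F0} ∅ (fun _ => true)
    (fun F hF => by rw [mem_singleton] at hF; rw [hF]; exact ⟨hF0, hAF0⟩) ⟨F0, by simp⟩
    (fun R hR => absurd hR (notMem_empty R)) (by simp)
    (fun R hR => absurd hR (notMem_empty R)) (fun R hR => absurd hR (notMem_empty R)) le_rfl
  refine ⟨c, ?_⟩
  set Φ := K.filter (fun F => IsFacet K F ∧ A ⊆ F) with hΦ
  set Q := K.filter (fun R => R.card = 3 ∧ A ⊆ R) with hQ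
  set I := K.filter (fun R => IR K R ∧ A ⊆ R) with hI
  have hmΦ : ∀ F, F ∈ Φ ↔ IsFacet K F ∧ A ⊆ F := fun F => by
    rw [hΦ, mem_filter]
    exact ⟨fun h => h.2, fun h => ⟨h.1.1, h⟩⟩
  have hmQ : ∀ R, R ∈ Q ↔ R ∈ K ∧ R.card = 3 ∧ A ⊆ R := fun R => by rw [hQ, mem_filter]
  have hmI : ∀ R, R ∈ I ↔ IR K R ∧ A ⊆ R := fun R => by
    rw [hI, mem_filter]
    exact ⟨fun h => h.2, fun h => ⟨IR_mem hK h.1, h⟩⟩
  have hIQ : I ⊆ Q := fun R hR => by
    rw [hmI] at hR
    rw [hmQ]
    exact ⟨IR_mem hK hR.1, hR.1.1, hR.2⟩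
  have hTI : T ⊆ I := fun R hR => (hmI R).2 (hT1 R hR)
  -- the facets containing an interior ridge
  have htwoI : ∀ R, IR K R → A ⊆ R → ∀ F F', IsFacet K F → IsFacet K F' → F ≠ F' → R ⊆ F →
      R ⊆ F' → Φ.filter (fun X => R ⊆ X) = {F, F'} := by
    intro R hR hAR F F' hF hF' hne h1 h2
    ext X
    rw [mem_filter, hmΦ, mem_insert, mem_singleton]
    constructor
    · rintro ⟨⟨h3, h4⟩, h5⟩
      rcases htwo R hR.1 X F F' h3 hF hF' h5 h1 h2 with h | h | h
      · exact Or.inl h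
      · exact Or.inr h
      · exact absurd h hne
    · rintro (rfl | rfl)
      · exact ⟨⟨hF, hAR.trans h1⟩, h1⟩
      · exact ⟨⟨hF', hAR.trans h2⟩, h2⟩
  -- every facet contains two ridges
  have hFQ : ∀ X ∈ Φ, (Q.filter (fun ρ => ρ ⊆ X)).card = 2 := by
    intro X hX
    rw [hmΦ] at hX
    obtain ⟨ρ₁, ρ₂, hne', h3⟩ := two_ridges hc (hp X hX.1) hX.2
    have : Q.filter (fun ρ => ρ ⊆ X) = {ρ₁, ρ₂} := by
      ext ρ
      rw [mem_filter, hmQ, mem_insert, mem_singleton, ← h3 ρ]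
      constructor
      · rintro ⟨⟨-, h4, h5⟩, h6⟩
        exact ⟨h4, h5, h6⟩
      · rintro ⟨h4, h5, h6⟩
        exact ⟨⟨hK.2 _ hX.1.1 _ h6, h4, h5⟩, h6⟩
    rw [this, card_pair hne']
  have hcount : 2 * Φ.card = ∑ ρ ∈ Q, (Φ.filter (fun X => ρ ⊆ X)).card := by
    have h1 : ∑ X ∈ Φ, (Q.filter (fun ρ => ρ ⊆ X)).card =
        ∑ ρ ∈ Q, (Φ.filter (fun X => ρ ⊆ X)).card := by
      simp only [card_filter]
      exact sum_comm
    rw [← h1, sum_const_nat hFQ, mul_comm]
  have hlow : Q.card + I.card ≤ ∑ ρ ∈ Q, (Φ.filter (fun X => ρ ⊆ X)).card := by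
    have h1 : Q.card + I.card = ∑ ρ ∈ Q, (1 + if ρ ∈ I then 1 else 0) := by
      rw [sum_add_distrib, sum_const, smul_eq_mul, mul_one, ← card_filter]
      congr 1
      congr 1
      ext ρ
      exact ⟨fun h => mem_filter.2 ⟨hIQ h, h⟩, fun h => (mem_filter.1 h).2⟩
    rw [h1]
    apply sum_le_sum
    intro ρ hρ
    by_cases h2 : ρ ∈ I
    · rw [if_pos h2]
      obtain ⟨h3, h4⟩ := (hmI ρ).1 h2
      obtain ⟨-, F, F', hF, hF', hne, h5, h6⟩ := id h3
      rw [htwoI ρ h3 h4 F F' hF hF' hne h5 h6, card_pair hne]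
    · rw [if_neg h2]
      obtain ⟨h3, h4, h5⟩ := (hmQ ρ).1 hρ
      obtain ⟨F, hF, h6⟩ := exists_facet h3
      have : F ∈ Φ.filter (fun X => ρ ⊆ X) := mem_filter.2 ⟨(hmΦ F).2 ⟨hF, h5.trans h6⟩, h6⟩
      have := card_pos.2 ⟨F, this⟩
      omega
  have hIQc := card_le_card hIQ
  have hTIc := card_le_card hTI
  rcases eq_or_ne T I with hTI' | hTI'
  · intro R hR hAR
    exact hT3 R (hTI' ▸ (hmI R).2 ⟨hR, hAR⟩)
  · have hlt : T.card < I.card :=
      card_lt_card (Finset.ssubset_iff_subset_ne.2 ⟨hTI, hTI'⟩)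
    have hIQe : I = Q := eq_of_subset_of_card_le hIQ (by omega)
    have hone : (I \ T).card = 1 := by
      rw [card_sdiff_of_subset hTI]
      omega
    obtain ⟨R0, hR0⟩ := card_eq_one.1 hone
    have heven := hev (fun R hR hR3 hAR => by
      have : R ∈ I := by
        rw [hIQe]
        exact (hmQ R).2 ⟨hR, hR3, hAR⟩
      exact ((hmI R).1 this).1)
    -- the two sums modulo 2
    have hs1 : (∑ ρ ∈ I, ∑ X ∈ Φ.filter (fun X => ρ ⊆ X), (if c X = true then 1 else 0 : ZMod 2))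
        = 0 := by
      have h1 : (∑ ρ ∈ I, ∑ X ∈ Φ.filter (fun X => ρ ⊆ X),
          (if c X = true then 1 else 0 : ZMod 2)) =
          ∑ X ∈ Φ, ∑ ρ ∈ I.filter (fun ρ => ρ ⊆ X), (if c X = true then 1 else 0 : ZMod 2) := by
        simp only [sum_filter]
        exact sum_comm
      rw [h1]
      apply sum_eq_zero
      intro X hX
      rw [sum_const, hIQe, hFQ X hX, nsmul_eq_mul]
      have : ((2 : ℕ) : ZMod 2) = 0 := rfl
      rw [this, zero_mul]
    have hs2 : (∑ ρ ∈ I, (if ρ ∈ D then 1 else 0 : ZMod 2)) = 0 := by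
      have h1 : I.filter (fun ρ => ρ ∈ D) = D.filter (fun R => A ⊆ R) := by
        ext ρ
        constructor
        · intro h
          obtain ⟨h2, h3⟩ := mem_filter.1 h
          exact mem_filter.2 ⟨h3, ((hmI ρ).1 h2).2⟩
        · intro h
          obtain ⟨h2, h3⟩ := mem_filter.1 h
          exact mem_filter.2 ⟨(hmI ρ).2 ⟨hD ρ h2, h3⟩, h2⟩
      rw [sum_ite, sum_const_zero, add_zero, sum_const, h1, nsmul_eq_mul, mul_one]
      obtain ⟨a, ha⟩ := heven
      rw [ha, Nat.cast_add]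
      exact CharTwo.add_self_eq_zero _
    have hterm : ∀ ρ ∈ I, ∀ F F', IsFacet K F → IsFacet K F' → F ≠ F' → ρ ⊆ F → ρ ⊆ F' →
        ((c F ≠ c F' ↔ ρ ∈ D) ↔
        (∑ X ∈ Φ.filter (fun X => ρ ⊆ X), (if c X = true then 1 else 0 : ZMod 2)) +
          (if ρ ∈ D then 1 else 0 : ZMod 2) = 0) := by
      intro ρ hρ F F' hF hF' hne h1 h2
      obtain ⟨h3, h4⟩ := (hmI ρ).1 hρ
      rw [htwoI ρ h3 h4 F F' hF hF' hne h1 h2, sum_pair hne]
      exact chg_zmod
    intro R hR hAR F F' hF hF' hne h1 h2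
    have hRI : R ∈ I := (hmI R).2 ⟨hR, hAR⟩
    by_cases hRT : R ∈ T
    · exact hT3 R hRT F F' hF hF' hne h1 h2
    · rw [hterm R hRI F F' hF hF' hne h1 h2]
      have h5 : ∑ ρ ∈ I, ((∑ X ∈ Φ.filter (fun X => ρ ⊆ X), (if c X = true then 1 else 0 : ZMod 2)) +
          (if ρ ∈ D then 1 else 0 : ZMod 2)) = 0 := by
        rw [sum_add_distrib, hs1, hs2, add_zero]
      rw [← add_sum_erase I _ hRI] at h5
      rw [sum_eq_zero (s := I.erase R), add_zero] at h5
      · exact h5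
      · intro ρ hρ
        rw [mem_erase] at hρ
        have hρT : ρ ∈ T := by
          by_contra hn
          have h6 : ρ ∈ I \ T := mem_sdiff.2 ⟨hρ.2, hn⟩
          have h7 : R ∈ I \ T := mem_sdiff.2 ⟨hRI, hRT⟩
          rw [hR0, mem_singleton] at h6 h7
          exact hρ.1 (h6.trans h7.symm)
        obtain ⟨h8, h9⟩ := (hmI ρ).1 hρ.2
        obtain ⟨-, G, G', hG, hG', hGG, h10, h11⟩ := id h8
        exact (hterm ρ hρ.2 G G' hG hG' hGG h10 h11).1 (hT3 ρ hρT G G' hG hG' hGG h10 h11)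

open Classical in
theorem loc_col (hK : IsCx K) (hp : ∀ F, IsFacet K F → F.card = 4) (htwo : AtMostTwo 3 K)
    (hcp : ∀ τ ∈ K, CP K τ) {v : Fin n} (D : Finset (Finset (Fin n)))
    (hD : ∀ R ∈ D, IR K R ∧ v ∈ R)
    (hev : ∀ A, A ∈ K → A.card = 2 → v ∈ A → (∀ R ∈ K, R.card = 3 → A ⊆ R → IR K R) →
      Even (D.filter (fun R => A ⊆ R)).card) :
    ∀ σ ∈ K, v ∈ σ → 2 ≤ σ.card → ∃ c : Finset (Fin n) → Bool, ∀ R, IR K R → σ ⊆ R →
      Chg K D c R := by
  intro σ hσ hv h2
  rcases eq_or_lt_of_le h2 with h3 | h3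
  · exact edge_col hK hp htwo hσ h3.symm (hcp σ hσ) D (hev σ hσ h3.symm hv) (fun R hR => (hD R hR).1)
  rcases eq_or_lt_of_le (show 3 ≤ σ.card by omega) with h4 | h4
  · by_cases hσD : σ ∈ D
    · obtain ⟨F0, hF0, h5⟩ := exists_facet hσ
      refine ⟨fun X => decide (X = F0), ?_⟩
      intro R hR hσR F F' hF hF' hne h6 h7
      have h8 : σ = R := eq_of_subset_of_card_le hσR (by rw [hR.1]; omega)
      subst h8
      have h9 : F = F0 ∨ F' = F0 := by
        rcases htwo σ hR.1 F F' F0 hF hF' hF0 h6 h7 h5 with h | h | h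
        · exact absurd h hne
        · exact Or.inl h
        · exact Or.inr h
      refine ⟨fun _ => hσD, fun _ => ?_⟩
      rcases h9 with h | h
      · have h10 : F' ≠ F0 := fun h' => hne (h.trans h'.symm)
        simp [h, h10]
      · have h10 : F ≠ F0 := fun h' => hne (h'.trans h.symm)
        simp [h, h10]
    · refine ⟨fun _ => true, ?_⟩
      intro R hR hσR F F' hF hF' hne h6 h7
      have h8 : σ = R := eq_of_subset_of_card_le hσR (by rw [hR.1]; omega)
      subst h8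
      simp [hσD]
  · refine ⟨fun _ => true, ?_⟩
    intro R hR hσR
    have := card_le_card hσR
    rw [hR.1] at this
    omega

theorem xor_inv {D : Finset (Finset (Fin n))} {c c' : Finset (Fin n) → Bool}
    {τ X Y : Finset (Fin n)} (h : Conn K τ X Y) (h1 : ∀ R, IR K R → τ ⊆ R → Chg K D c R)
    (h2 : ∀ R, IR K R → τ ⊆ R → Chg K D c' R) : xor (c Y) (c' Y) = xor (c X) (c' X) := by
  induction h with
  | refl => rfl
  | tail _ hs ih =>
    rename_i b d _
    obtain ⟨hb, hd, R, hR, h3, h4, h5⟩ := hs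
    rw [← ih]
    by_cases hbd : b = d
    · rw [hbd]
    · have hIR : IR K R := ⟨hR, b, d, hb, hd, hbd, h4, h5⟩
      have e1 := h1 R hIR h3 b d hb hd hbd h4 h5
      have e2 := h2 R hIR h3 b d hb hd hbd h4 h5
      have e3 : c b ≠ c d ↔ c' b ≠ c' d := e1.trans e2.symm
      revert e3
      cases c b <;> cases c d <;> cases c' b <;> cases c' d <;> simp

theorem eq_bary_of_supp {v : Fin n} {y : Fin n → ℝ} (hv : {v} ∈ K) (hy : y ∈ realization K)
    (hs : supp y = {v}) : y = bary {v} := by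
  have h1 := sum_supp hy
  rw [hs, sum_singleton] at h1
  have h2 := sum_supp (bary_mem hv (singleton_nonempty v))
  rw [supp_bary, sum_singleton] at h2
  funext i
  by_cases hi : i = v
  · rw [hi, h1, h2]
  · have h3 : bary {v} i = 0 := by
      by_contra hn
      have := mem_supp.2 hn
      rw [supp_bary, mem_singleton] at this
      exact hi this
    have h4 : y i = 0 := by
      by_contra hn
      have := mem_supp.2 hn
      rw [hs, mem_singleton] at this
      exact hi this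
    rw [h3, h4]

theorem sep_top (hK : IsCx K) (hp : ∀ F, IsFacet K F → F.card = 4) (htwo : AtMostTwo 3 K)
    (e : realization K ≃ₜ closedBall (0 : R3) 1) (v : Fin n) (D : Finset (Finset (Fin n)))
    (hD : ∀ R ∈ D, IR K R ∧ v ∈ R)
    (hev : ∀ A, A ∈ K → A.card = 2 → v ∈ A → (∀ R ∈ K, R.card = 3 → A ⊆ R → IR K R) →
      Even (D.filter (fun R => A ⊆ R)).card) :
    ∃ c : Finset (Fin n) → Bool, ∀ R, IR K R → v ∈ R → Chg K D c R := by
  classical
  by_cases hv : {v} ∈ K
  swap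
  · refine ⟨fun _ => true, fun R hR hvR => absurd ?_ hv⟩
    exact hK.2 _ (IR_mem hK hR) _ (singleton_subset_iff.2 hvR)
  have hcp : ∀ τ ∈ K, CP K τ := fun τ hτ => cp_all hK hp e hτ
  set x0 := bary ({v} : Finset (Fin n)) with hx0
  have hx0X : x0 ∈ realization K := bary_mem hv (singleton_nonempty v)
  have hx0s : supp x0 = {v} := supp_bary {v}
  obtain ⟨B, hBX, hBO, hx0B, ⟨δ, hδ, hδB⟩, hBc, hSg, hnh⟩ :=
    exists_punct e hx0X (O := {y | supp x0 ⊆ supp y}) (supp_mono x0)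
  have hBv : ∀ y ∈ B, v ∈ supp y := fun y hy =>
    singleton_subset_iff.1 (hx0s ▸ hBO hy)
  have hB2 : ∀ y ∈ B, 2 ≤ (supp y).card := by
    intro y hy
    have h1 := card_pos.2 ⟨v, hBv y hy⟩
    by_contra hn
    have h2 : (supp y).card = 1 := by omega
    obtain ⟨w, hw⟩ := card_eq_one.1 h2
    have h3 := hBv y hy
    rw [hw, mem_singleton] at h3
    rw [← h3] at hw
    have h4 := eq_bary_of_supp hv (hBX hy) hw
    rw [h4] at hy
    exact hx0B hy
  choose! C hC using loc_col hK hp htwo hcp D hD hev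
  have hex : ∀ σ ∈ K, ∃ F, IsFacet K F ∧ σ ⊆ F := fun σ hσ => exists_facet hσ
  choose! Fc hFc using hex
  have hFcF : ∀ F, IsFacet K F → Fc F = F := fun F hF => hF.2 _ (hFc F hF.1).1.1 (hFc F hF.1).2
  obtain ⟨σ, hσ⟩ := hSg (fun i => {y | supp i ⊆ supp y}) (fun i y => C (supp i) (Fc (supp y)))
    (fun i hi => Subset.refl _)
    (fun i hi x hx hxU => by
      filter_upwards [mem_nhdsWithin_of_mem_nhds (supp_mono x)] with y hy
      exact Subset.trans hxU hy)
    (fun i hi j hj x hx hxi hxj => by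
      filter_upwards [mem_nhdsWithin_of_mem_nhds (supp_mono x), self_mem_nhdsWithin] with y hy hyB
      have h1 := hFc _ (supp_mem hK (hBX hx))
      have h2 := hFc _ (supp_mem hK (hBX hyB))
      have h3 := hcp _ (supp_mem hK (hBX hx)) _ _ h1.1 h2.1 h1.2 (hy.trans h2.2)
      refine xor_inv (D := D) (c := C (supp i)) (c' := C (supp j)) h3 ?_ ?_
      · intro R hR hxR
        exact hC (supp i) (supp_mem hK (hBX hi)) (hBv i hi) (hB2 i hi) R hR
          (Subset.trans hxi hxR)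
      · intro R hR hxR
        exact hC (supp j) (supp_mem hK (hBX hj)) (hBv j hj) (hB2 j hj) R hR
          (Subset.trans hxj hxR))
  have hexz : ∀ τ, τ ∈ K ∧ v ∈ τ → ∃ z, z ∈ realization K ∧ supp z = τ ∧ dist z x0 < δ := by
    rintro τ ⟨hτ, hvτ⟩
    obtain ⟨z, h1, h2, h3⟩ := exists_point hK hx0X hτ (by
      rw [hx0s]; exact singleton_subset_iff.2 hvτ) hδ
    exact ⟨z, h1, h2, h3⟩
  choose! Z hZ using hexz
  refine ⟨fun F => σ (Z F), ?_⟩
  intro R hR hvR
  have hRK := IR_mem hK hR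
  obtain ⟨hq1, hq2, hq3⟩ := hZ R ⟨hRK, hvR⟩
  have hne1 : ∀ y, 2 ≤ (supp y).card → y ≠ x0 := by
    intro y h1 h2
    rw [h2, hx0s, card_singleton] at h1
    omega
  have hqB : Z R ∈ B := hδB _ hq1 (hne1 _ (by rw [hq2, hR.1]; norm_num)) hq3
  have key : ∀ F, IsFacet K F → R ⊆ F →
      xor (σ (Z R)) (C (supp (Z R)) (Fc (supp (Z R)))) = xor (σ (Z F)) (C R F) := by
    intro F hF hRF
    obtain ⟨hz1, hz2, hz3⟩ := hZ F ⟨hF.1, hRF hvR⟩
    have h1 : xor (σ (Z R)) (C (supp (Z R)) (Fc (supp (Z R)))) =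
        xor (σ (Z F)) (C (supp (Z R)) (Fc (supp (Z F)))) := by
      refine seg_const (B := B) (g := fun y => xor (σ y) (C (supp (Z R)) (Fc (supp y))))
        (fun y hy => ?_)
      obtain ⟨h2, h3⟩ := seg_mem hK hq1 hz1 (by rw [hq2, hz2]; exact hRF) hy
      have h4 : R ⊆ supp y := by
        rcases h3 with h3 | h3
        · rw [h3, hq2]
        · rw [h3, hz2]
          exact hRF
      have h5 : y ∈ B := by
        refine hδB y h2 (hne1 y ?_) (seg_dist hq3 hz3 hy)
        have := card_le_card h4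
        rw [hR.1] at this
        omega
      refine ⟨h5, ?_⟩
      exact hσ (Z R) hqB y h5 (by
        show supp (Z R) ⊆ supp y
        rw [hq2]
        exact h4)
    rw [h1, hq2, hz2, hFcF F hF]
  intro F F' hF hF' hne h1 h2
  have e1 := key F hF h1
  have e2 := key F' hF' h2
  have e3 : xor (σ (Z F)) (C R F) = xor (σ (Z F')) (C R F') := e1.symm.trans e2
  have e4 := hC R hRK hvR (by rw [hR.1]; norm_num) R hR (Subset.refl _) F F' hF hF' hne h1 h2
  rw [← e4]
  show σ (Z F) ≠ σ (Z F') ↔ C R F ≠ C R F'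
  revert e3
  cases σ (Z F) <;> cases σ (Z F') <;> cases C R F <;> cases C R F' <;> simp

end Pool.Agent.Y364.E3
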