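import Mathlib
import Pool.Agent.Y364.E3.Core

set_option autoImplicit false
set_option linter.unusedSectionVars false
set_option linter.unusedVariables false

/-!
# Non-evasive complexes with the local properties of 3-balls are locally constructible
-/

namespace Pool.Agent.Y364.E3

open Finset Pool.Agent.H933R3 Pool.Agent.Y364.NL

variable {V : Type} [DecidableEq V] {K : Finset (Finset V)}

theorem exists_leaf (hK : Good K) {𝓕 G : Finset (Finset V)} (h : LCStage 3 K 𝓕 G) {v : V}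
    (hall : ∀ X, IsFacet K X → v ∈ X → X ∈ 𝓕) (hconn : ConnG 𝓕 G {v}) {D : Finset (Finset V)}
    (hD : D.Nonempty) (hDi : ∀ R ∈ D, IR K R ∧ v ∈ R ∧ R ∉ G) :
    ∃ A ∈ K, A.card = 2 ∧ v ∈ A ∧ (∀ ρ ∈ K, ρ.card = 3 → A ⊆ ρ → IR K ρ) ∧
      (D.filter (fun R => A ⊆ R)).card = 1 := by
  classical
  by_contra hcon
  push Not at hcon
  let I := K.filter (fun A => A.card = 2 ∧ v ∈ A ∧ ∀ ρ ∈ K, ρ.card = 3 → A ⊆ ρ → IR K ρ)
  have hI : ∀ A, A ∈ I ↔ A ∈ K ∧ A.card = 2 ∧ v ∈ A ∧ ∀ ρ ∈ K, ρ.card = 3 → A ⊆ ρ → IR K ρ :=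
    fun A => by rw [mem_filter]
  obtain ⟨z, hz, hzn, hev⟩ := exists_even D I hD (v := v)
    (fun R hR => ⟨(hDi R hR).1.1, (hDi R hR).2.1⟩)
    (fun A hA => ⟨((hI A).1 hA).2.1, ((hI A).1 hA).2.2.1⟩)
    (fun A hA => by
      obtain ⟨h1, h2, h3, h4⟩ := (hI A).1 hA
      exact hcon A h1 h2 h3 h4)
  obtain ⟨c, hc⟩ := hK.sep v z (fun R hR => ⟨(hDi R (hz hR)).1, (hDi R (hz hR)).2.1⟩)
    (fun A h1 h2 h3 h4 => hev A ((hI A).2 ⟨h1, h2, h3, h4⟩))
  obtain ⟨hb, hbG, -⟩ := stage_basic h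
  have hstep : ∀ F F', SameFace 𝓕 G {v} F F' → c F = c F' := by
    intro F F' hs
    induction hs with
    | refl => rfl
    | tail _ hs ih =>
      obtain ⟨hX, hY, R, hR, h1, h2, h3⟩ := hs
      rw [ih]
      by_contra hne
      have hXY := fun e => hne (congrArg c e)
      have hIR : IR K R := ⟨(hbG R hR).1, _, _, hb _ hX, hb _ hY, hXY, h2, h3⟩
      have := (hc R hIR (singleton_subset_iff.1 h1) _ _ (hb _ hX) (hb _ hY) hXY h2 h3).1 hne
      exact (hDi R (hz this)).2.2 hR
  obtain ⟨R, hR⟩ := hzn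
  obtain ⟨hIR, hvR, -⟩ := hDi R (hz hR)
  obtain ⟨hR3, F, F', hF, hF', hne, h1, h2⟩ := id hIR
  have := (hc R hIR hvR F F' hF hF' hne h1 h2).2 hR
  exact this (hstep F F' (hconn F (hall F hF (h1 hvR)) F' (hall F' hF' (h2 hvR))
    (singleton_subset_iff.2 (h1 hvR)) (singleton_subset_iff.2 (h2 hvR))))

open Classical in
theorem glue_all (hK : Good K) {v : V} : ∀ (m : ℕ) (𝓕 G : Finset (Finset V)),
    LCStage 3 K 𝓕 G → (∀ X, IsFacet K X → v ∈ X → X ∈ 𝓕) → ConnG 𝓕 G {v} →
    (K.filter (fun R => IR K R ∧ v ∈ R ∧ R ∉ G)).card ≤ m →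
    ∃ G', LCStage 3 K 𝓕 G' ∧ G ⊆ G' ∧ (∀ R ∈ G', R ∈ G ∨ v ∈ R) ∧
      ∀ R, IR K R → v ∈ R → R ∈ G' := by
  intro m
  induction m with
  | zero =>
    intro 𝓕 G h hall hconn hm
    refine ⟨G, h, Subset.refl _, fun R hR => Or.inl hR, fun R hR hv => ?_⟩
    by_contra hn
    rw [Nat.le_zero, card_eq_zero] at hm
    have : R ∈ K.filter (fun R => IR K R ∧ v ∈ R ∧ R ∉ G) :=
      mem_filter.2 ⟨IR_mem hK.cx hR, hR, hv, hn⟩
    rw [hm] at this
    exact absurd this (notMem_empty _)
  | succ m ih =>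
    intro 𝓕 G h hall hconn hm
    rcases (K.filter (fun R => IR K R ∧ v ∈ R ∧ R ∉ G)).eq_empty_or_nonempty with he | hne
    · refine ⟨G, h, Subset.refl _, fun R hR => Or.inl hR, fun R hR hv => ?_⟩
      by_contra hn
      have : R ∈ K.filter (fun R => IR K R ∧ v ∈ R ∧ R ∉ G) :=
        mem_filter.2 ⟨IR_mem hK.cx hR, hR, hv, hn⟩
      rw [he] at this
      exact absurd this (notMem_empty _)
    · obtain ⟨A, hA, hA2, hvA, hint, hone⟩ := exists_leaf hK h hall hconn hne
        (fun R hR => (mem_filter.1 hR).2)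
      obtain ⟨R, hR⟩ := card_eq_one.1 hone
      have hRm : R ∈ (K.filter (fun R => IR K R ∧ v ∈ R ∧ R ∉ G)).filter (fun R => A ⊆ R) := by
        rw [hR]; exact mem_singleton_self R
      rw [mem_filter, mem_filter] at hRm
      obtain ⟨⟨hRK, hIR, hvR, hRG⟩, hAR⟩ := hRm
      obtain ⟨hR3, F, F', hF, hF', hFF, h1, h2⟩ := id hIR
      have hs : SameFace 𝓕 G A F F' := by
        refine cycle hK hA2 hint (fun X hX hAX => hall X hX (hAX hvA)) ?_ hF hF' hR3 hAR h1 h2 hFF
        intro ρ hρ hAρ hne'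
        by_contra hn
        have : ρ ∈ (K.filter (fun R => IR K R ∧ v ∈ R ∧ R ∉ G)).filter (fun R => A ⊆ R) :=
          mem_filter.2 ⟨mem_filter.2 ⟨IR_mem hK.cx hρ, hρ, hAρ hvA, hn⟩, hAρ⟩
        rw [hR, mem_singleton] at this
        exact hne' this
      have hst := LCStage.glue 𝓕 G F F' R A h (hall F hF (h1 hvR)) (hall F' hF' (h2 hvR)) hFF hR3
        h1 h2 hRG (by rw [hA2]) hAR hs
      have hlt : (K.filter (fun R' => IR K R' ∧ v ∈ R' ∧ R' ∉ insert R G)).card ≤ m := by
        have : (K.filter (fun R' => IR K R' ∧ v ∈ R' ∧ R' ∉ insert R G)) ⊂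
            (K.filter (fun R' => IR K R' ∧ v ∈ R' ∧ R' ∉ G)) := by
          refine ⟨fun R' hR' => ?_, fun hsub => ?_⟩
          · rw [mem_filter] at hR' ⊢
            exact ⟨hR'.1, hR'.2.1, hR'.2.2.1, fun h => hR'.2.2.2 (mem_insert_of_mem h)⟩
          · have := hsub (mem_filter.2 ⟨hRK, hIR, hvR, hRG⟩)
            rw [mem_filter] at this
            exact this.2.2.2 (mem_insert_self _ _)
        have := card_lt_card this
        omega
      obtain ⟨G', h3, h4, h5, h6⟩ := ih 𝓕 (insert R G) hst hall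
        (fun X hX Y hY hvX hvY => same_mono (Subset.refl _) (subset_insert _ _)
          (hconn X hX Y hY hvX hvY)) hlt
      refine ⟨G', h3, (subset_insert _ _).trans h4, fun R' hR' => ?_, h6⟩
      rcases h5 R' hR' with h | h
      · rcases mem_insert.1 h with rfl | h
        · exact Or.inr hvR
        · exact Or.inl h
      · exact Or.inr h

/-- The state after the vertices in `S` have been treated. -/
def Done (K : Finset (Finset V)) (S : Finset V) : Prop :=
  ∃ 𝓕 G, LCStage 3 K 𝓕 G ∧ (∀ F, F ∈ 𝓕 ↔ IsFacet K F ∧ ∃ u ∈ F, u ∈ S) ∧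
    (∀ R ∈ G, ∃ u ∈ R, u ∈ S) ∧ ∀ R, IR K R → (∃ u ∈ R, u ∈ S) → R ∈ G

theorem treat (hK : Good K) {v : V} (hv : {v} ∈ K) {S : Finset V} {𝓕 G : Finset (Finset V)}
    (h : LCStage 3 K 𝓕 G) (hF : ∀ F, F ∈ 𝓕 → IsFacet K F ∧ ∃ u ∈ F, u ∈ insert v S)
    (hF' : ∀ F, IsFacet K F → (∃ u ∈ F, u ∈ S) → F ∈ 𝓕)
    (hG : ∀ R ∈ G, ∃ u ∈ R, u ∈ insert v S) (hG' : ∀ R, IR K R → (∃ u ∈ R, u ∈ S) → R ∈ G)
    (h0 : ∃ F0 ∈ 𝓕, v ∈ F0) (hconn : ConnG 𝓕 G {v}) : Done K (insert v S) := by
  classical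
  obtain ⟨F0, hF0, hvF0⟩ := h0
  obtain ⟨𝓕₁, G₁, h1, h2, h3, h4, h5⟩ := attach_all hK hv (by rw [card_singleton]; norm_num) _
    𝓕 G h le_rfl ⟨F0, hF0, singleton_subset_iff.2 hvF0⟩ hconn
  obtain ⟨G₂, h6, h7, h8, h9⟩ := glue_all hK (v := v) _ 𝓕₁ G₁ h1
    (fun X hX hvX => (h2 X).2 (Or.inr ⟨hX, singleton_subset_iff.2 hvX⟩)) h5 le_rfl
  refine ⟨𝓕₁, G₂, h6, fun F => ?_, fun R hR => ?_, fun R hR hu => ?_⟩
  · rw [h2]
    constructor
    · rintro (h | ⟨h, hvF⟩)
      · exact hF F h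
      · exact ⟨h, v, singleton_subset_iff.1 hvF, mem_insert_self _ _⟩
    · rintro ⟨h, u, huF, hu⟩
      rcases mem_insert.1 hu with rfl | hu
      · exact Or.inr ⟨h, singleton_subset_iff.2 huF⟩
      · exact Or.inl (hF' F h ⟨u, huF, hu⟩)
  · rcases h8 R hR with h | h
    · rcases h4 R h with h | h
      · exact hG R h
      · exact ⟨v, singleton_subset_iff.1 h, mem_insert_self _ _⟩
    · exact ⟨v, h, mem_insert_self _ _⟩
  · obtain ⟨u, huR, hu⟩ := hu
    rcases mem_insert.1 hu with rfl | hu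
    · exact h9 R hR huR
    · exact h7 (h3 (hG' R hR ⟨u, huR, hu⟩))

/-- one more vertex -/
theorem done_insert (hK : Good K) {v : V} (hv : {v} ∈ K) {S : Finset V} (hS : Done K S)
    (hne : ∃ u ∈ S, {u, v} ∈ K)
    (hcon : ∀ u ∈ S, ∀ u' ∈ S, {u, v} ∈ K → {u', v} ∈ K →
      Relation.ReflTransGen (fun a b => a ∈ S ∧ b ∈ S ∧ a ≠ v ∧ b ≠ v ∧ {a, b, v} ∈ K) u u')
    (hvS : v ∉ S) :
    Done K (insert v S) := by
  classical
  obtain ⟨𝓕, G, h, h1, h2, h3⟩ := hS
  have hne2 : ∀ u ∈ S, u ≠ v := fun u hu e => hvS (e ▸ hu)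
  refine treat hK hv h (fun F hF => ?_) (fun F hF hu => (h1 F).2 ⟨hF, hu⟩) (fun R hR => ?_) h3 ?_ ?_
  · obtain ⟨h4, u, h5, h6⟩ := (h1 F).1 hF
    exact ⟨h4, u, h5, mem_insert_of_mem h6⟩
  · obtain ⟨u, h4, h5⟩ := h2 R hR
    exact ⟨u, h4, mem_insert_of_mem h5⟩
  · obtain ⟨u, hu, huv⟩ := hne
    obtain ⟨F, hF, h4⟩ := exists_facet huv
    exact ⟨F, (h1 F).2 ⟨hF, u, h4 (by simp), hu⟩, h4 (by simp)⟩
  · -- connectedness around `v`
    have hedge : ∀ u ∈ S, {u, v} ∈ K → ∀ X Y, IsFacet K X → IsFacet K Y → {u, v} ⊆ X →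
        {u, v} ⊆ Y → SameFace 𝓕 G {v} X Y := by
      intro u hu huv X Y hX hY hX2 hY2
      have hc := hK.conn {u, v} huv (by rw [card_pair (hne2 u hu)]) X Y hX hY hX2 hY2
      clear hY2 hY
      induction hc with
      | refl => exact Relation.ReflTransGen.refl
      | tail _ hs ih =>
        rename_i b c _
        refine ih.trans ?_
        obtain ⟨hb, hc, R, hR, h4, h5, h6⟩ := hs
        by_cases hbc : b = c
        · rw [hbc]
        · have huR : u ∈ R := h4 (by simp)
          have hvR : v ∈ R := h4 (by simp)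
          have hRG := h3 R ⟨hR, b, c, hb, hc, hbc, h5, h6⟩ ⟨u, huR, hu⟩
          exact same_single ((h1 b).2 ⟨hb, u, h5 huR, hu⟩) ((h1 c).2 ⟨hc, u, h6 huR, hu⟩) hRG
            (singleton_subset_iff.2 hvR) h5 h6
    intro X hX Y hY hvX hvY
    obtain ⟨hX1, u, huX, hu⟩ := (h1 X).1 hX
    obtain ⟨hY1, u', huY, hu'⟩ := (h1 Y).1 hY
    rw [singleton_subset_iff] at hvX hvY
    have huv : {u, v} ∈ K := hK.cx.2 _ hX1.1 _ (insert_subset huX (singleton_subset_iff.2 hvX))
    have huv' : {u', v} ∈ K := hK.cx.2 _ hY1.1 _ (insert_subset huY (singleton_subset_iff.2 hvY))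
    have hpath := hcon u hu u' hu' huv huv'
    clear hX
    -- along the path
    have key : ∀ w, Relation.ReflTransGen
        (fun a b => a ∈ S ∧ b ∈ S ∧ a ≠ v ∧ b ≠ v ∧ {a, b, v} ∈ K) u w → w ∈ S →
        ∀ Z, IsFacet K Z → {w, v} ⊆ Z → SameFace 𝓕 G {v} X Z := by
      intro w hw
      induction hw with
      | refl =>
        intro _ Z hZ hZ2
        exact hedge u hu huv X Z hX1 hZ (insert_subset huX (singleton_subset_iff.2 hvX)) hZ2
      | tail _ hs ih =>
        rename_i b c _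
        obtain ⟨hb, hc, hbv, hcv, hbc⟩ := hs
        intro _ Z hZ hZ2
        obtain ⟨W, hW, hWs⟩ := exists_facet hbc
        have h5 : {b, v} ⊆ W := by
          intro x hx
          apply hWs
          rw [mem_insert, mem_singleton] at hx
          rcases hx with rfl | rfl <;> simp
        have h6 : {c, v} ⊆ W := by
          intro x hx
          apply hWs
          rw [mem_insert, mem_singleton] at hx
          rcases hx with rfl | rfl <;> simp
        exact (ih hb W hW h5).trans (hedge c hc (hK.cx.2 _ hW.1 _ h6) W Z hW hZ h6 hZ2)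
    exact key u' hpath hu' Y hY1 (insert_subset huY (singleton_subset_iff.2 hvY))

/-- the first vertex -/
theorem done_first (hK : Good K) {v : V} (hv : {v} ∈ K) : Done K {v} := by
  classical
  obtain ⟨F, hF, hvF⟩ := exists_facet hv
  rw [singleton_subset_iff] at hvF
  have h := treat hK hv (S := ∅) (LCStage.start F hF) (fun F' hF' => by
      rw [mem_singleton] at hF'
      subst hF'
      exact ⟨hF, v, hvF, mem_insert_self _ _⟩)
    (fun F' _ hu => by
      obtain ⟨u, -, hu⟩ := hu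
      exact absurd hu (notMem_empty u))
    (fun R hR => absurd hR (notMem_empty R))
    (fun R _ hu => by
      obtain ⟨u, -, hu⟩ := hu
      exact absurd hu (notMem_empty u))
    ⟨F, mem_singleton_self F, hvF⟩
    (fun X hX Y hY _ _ => by
      rw [mem_singleton] at hX hY
      rw [hX, hY]
      exact Relation.ReflTransGen.refl)
  exact h

/-! ### non-evasive complexes are connected -/

theorem ne_vertex {C : Finset (Finset V)} (h : NonEvasive C) : ∃ u, {u} ∈ C := by
  cases h with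
  | point v => exact ⟨v, by simp⟩
  | step _ v hv _ _ => exact ⟨v, hv⟩

theorem ne_empty_mem {C : Finset (Finset V)} (h : NonEvasive C) : ∅ ∈ C := by
  induction h with
  | point v => simp
  | step K v hv hd hl ih1 ih2 => exact (mem_filter.1 ih1).1

theorem ne_conn {C : Finset (Finset V)} (h : NonEvasive C) : ∀ a b, {a} ∈ C → {b} ∈ C →
    Relation.ReflTransGen (fun x y => {x} ∈ C ∧ {y} ∈ C ∧ {x, y} ∈ C) a b := by
  induction h with
  | point v =>
    intro a b ha hb
    rw [mem_insert, mem_singleton] at ha hb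
    have h1 : a = v := by
      rcases ha with h | h
      · exact absurd h (singleton_ne_empty a)
      · exact singleton_injective h
    have h2 : b = v := by
      rcases hb with h | h
      · exact absurd h (singleton_ne_empty b)
      · exact singleton_injective h
    rw [h1, h2]
  | step C v hv hd hl ih1 ih2 =>
    obtain ⟨u, hu⟩ := ne_vertex hl
    rw [link, mem_filter] at hu
    obtain ⟨huC, hvu, hvuC⟩ := hu
    have huv : v ≠ u := fun e => hvu (e ▸ mem_singleton_self u)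
    have hud : {u} ∈ del C v := mem_filter.2 ⟨huC, hvu⟩
    have hto : ∀ a, {a} ∈ C →
        Relation.ReflTransGen (fun x y => {x} ∈ C ∧ {y} ∈ C ∧ {x, y} ∈ C) a u ∧
        Relation.ReflTransGen (fun x y => {x} ∈ C ∧ {y} ∈ C ∧ {x, y} ∈ C) u a := by
      intro a ha
      by_cases hav : a = v
      · subst hav
        have h1 : ({a, u} : Finset V) ∈ C := hvuC
        refine ⟨Relation.ReflTransGen.single ⟨ha, huC, h1⟩, Relation.ReflTransGen.single ⟨huC, ha, ?_⟩⟩
        rw [pair_comm]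
        exact h1
      · have had : {a} ∈ del C v := mem_filter.2 ⟨ha, by rw [mem_singleton]; exact fun e => hav e.symm⟩
        have hmono : ∀ x y, ({x} ∈ del C v ∧ {y} ∈ del C v ∧ {x, y} ∈ del C v) →
            ({x} ∈ C ∧ {y} ∈ C ∧ {x, y} ∈ C) := fun x y h =>
          ⟨(mem_filter.1 h.1).1, (mem_filter.1 h.2.1).1, (mem_filter.1 h.2.2).1⟩
        exact ⟨Relation.ReflTransGen.mono hmono _ _ (ih1 a u had hud),
          Relation.ReflTransGen.mono hmono _ _ (ih1 u a hud had)⟩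
    intro a b ha hb
    exact (hto a ha).1.trans (hto b hb).2

/-! ### the main induction -/

theorem done_of (hK : Good K) {C : Finset (Finset V)} (h : NonEvasive C) :
    ∀ W : Finset V, C = K.filter (fun σ => σ ⊆ W) → (∀ u ∈ W, {u} ∈ K) → Done K W := by
  induction h with
  | point v =>
    intro W hW hWK
    have h1 : ∀ u ∈ W, u = v := by
      intro u hu
      have : {u} ∈ K.filter (fun σ => σ ⊆ W) :=
        mem_filter.2 ⟨hWK u hu, singleton_subset_iff.2 hu⟩
      rw [← hW, mem_insert, mem_singleton] at this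
      rcases this with h | h
      · exact absurd h (singleton_ne_empty u)
      · exact singleton_injective h
    have h2 : {v} ∈ K.filter (fun σ => σ ⊆ W) := by rw [← hW]; simp
    rw [mem_filter, singleton_subset_iff] at h2
    have h3 : W = {v} := by
      ext u
      rw [mem_singleton]
      exact ⟨h1 u, fun e => e ▸ h2.2⟩
    rw [h3]
    exact done_first hK h2.1
  | step C v hv hd hl ih1 ih2 =>
    intro W hW hWK
    rw [hW, mem_filter, singleton_subset_iff] at hv
    have hdel : del C v = K.filter (fun σ => σ ⊆ W.erase v) := by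
      ext σ
      rw [del, mem_filter, hW, mem_filter, mem_filter, subset_erase]
      tauto
    have hD := ih1 (W.erase v) hdel (fun u hu => hWK u (mem_of_mem_erase hu))
    have hlink : ∀ σ, σ ∈ link C v ↔ (σ ∈ K ∧ σ ⊆ W) ∧ v ∉ σ ∧ insert v σ ∈ K := by
      intro σ
      rw [link, mem_filter, hW, mem_filter, mem_filter]
      constructor
      · rintro ⟨h1, h2, h3, h4⟩
        exact ⟨h1, h2, h3⟩
      · rintro ⟨h1, h2, h3⟩
        exact ⟨h1, h2, h3, insert_subset hv.2 h1.2⟩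
    have hins : insert v (W.erase v) = W := insert_erase hv.2
    rw [← hins]
    refine done_insert hK hv.1 hD ?_ ?_ (notMem_erase v W)
    · obtain ⟨u, hu⟩ := ne_vertex hl
      rw [hlink] at hu
      obtain ⟨⟨h1, h2⟩, h3, h4⟩ := hu
      refine ⟨u, mem_erase.2 ⟨fun e => h3 (by simp [e]), singleton_subset_iff.1 h2⟩, ?_⟩
      rw [pair_comm]
      exact h4
    · intro u hu u' hu' huv huv'
      have hmem : ∀ w ∈ W.erase v, {w, v} ∈ K → {w} ∈ link C v := by
        intro w hw hwv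
        rw [mem_erase] at hw
        rw [hlink]
        refine ⟨⟨hWK w hw.2, singleton_subset_iff.2 hw.2⟩, ?_, ?_⟩
        · rw [mem_singleton]
          exact fun e => hw.1 e.symm
        · rw [pair_comm] at hwv
          exact hwv
      refine Relation.ReflTransGen.mono ?_ _ _ (ne_conn hl u u' (hmem u hu huv) (hmem u' hu' huv'))
      rintro a b ⟨ha, hb, hab⟩
      rw [hlink] at ha hb hab
      have hav : a ≠ v := fun e => ha.2.1 (by simp [e])
      have hbv : b ≠ v := fun e => hb.2.1 (by simp [e])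
      refine ⟨mem_erase.2 ⟨hav, singleton_subset_iff.1 ha.1.2⟩,
        mem_erase.2 ⟨hbv, singleton_subset_iff.1 hb.1.2⟩, hav, hbv, ?_⟩
      have h5 : ({a, b, v} : Finset V) = insert v {a, b} := by
        ext x
        simp only [mem_insert, mem_singleton]
        tauto
      rw [h5]
      exact hab.2.2

/-- **Non-evasive complexes with the local properties of 3-balls are locally constructible.** -/
theorem isLC_of_nonEvasive (hK : Good K) (h : NonEvasive K) : IsLC 3 K := by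
  classical
  let W : Finset V := K.biUnion id
  have hW : ∀ u, u ∈ W ↔ {u} ∈ K := by
    intro u
    rw [mem_biUnion]
    constructor
    · rintro ⟨σ, hσ, hu⟩
      exact hK.cx.2 _ hσ _ (singleton_subset_iff.2 hu)
    · intro hu
      exact ⟨{u}, hu, mem_singleton_self u⟩
  have hKW : K = K.filter (fun σ => σ ⊆ W) := by
    ext σ
    rw [mem_filter]
    exact ⟨fun hσ => ⟨hσ, subset_biUnion_of_mem id hσ⟩, fun h => h.1⟩
  obtain ⟨𝓕, G, h1, h2, h3, h4⟩ := done_of hK h W hKW (fun u hu => (hW u).1 hu)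
  have hall : ∀ F, IsFacet K F → F ∈ 𝓕 := by
    intro F hF
    have hc := hK.pure F hF
    obtain ⟨u, hu⟩ := card_pos.1 (by rw [hc]; norm_num : 0 < F.card)
    exact (h2 F).2 ⟨hF, u, hu, (hW u).2 (hK.cx.2 _ hF.1 _ (singleton_subset_iff.2 hu))⟩
  have hallG : ∀ R, IR K R → R ∈ G := by
    intro R hR
    obtain ⟨u, hu⟩ := card_pos.1 (by rw [hR.1]; norm_num : 0 < R.card)
    exact h4 R hR ⟨u, hu, (hW u).2 (hK.cx.2 _ (IR_mem hK.cx hR) _ (singleton_subset_iff.2 hu))⟩
  refine ⟨fun F hF => hK.pure F hF, hK.two, 𝓕, G, h1, hall, ?_⟩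
  intro A hA F hF F' hF' hAF hAF'
  have hFf := ((h2 F).1 hF).1
  have hFf' := ((h2 F').1 hF').1
  by_cases hFF : F = F'
  · rw [hFF]
    exact Relation.ReflTransGen.refl
  rcases Nat.lt_or_ge 2 A.card with hgt | hle
  · have h4' : A.card ≤ 4 := by
      have := card_le_card hAF
      rw [hK.pure F hFf] at this
      exact this
    have hne4 : A.card ≠ 4 := by
      intro h5
      have e1 : A = F := eq_of_subset_of_card_le hAF (by rw [hK.pure F hFf, h5])
      have e2 : A = F' := eq_of_subset_of_card_le hAF' (by rw [hK.pure F' hFf', h5])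
      exact hFF (e1.symm.trans e2)
    have h3' : A.card = 3 := by omega
    exact same_single hF hF' (hallG A ⟨h3', F, F', hFf, hFf', hFF, hAF, hAF'⟩) (Subset.refl _)
      hAF hAF'
  · have hc := hK.conn A hA hle F F' hFf hFf' hAF hAF'
    clear hFF hAF' hF' hFf'
    induction hc with
    | refl => exact Relation.ReflTransGen.refl
    | tail _ hs ih =>
      rename_i b c _
      refine ih.trans ?_
      obtain ⟨hb, hc, R, hR, h5, h6, h7⟩ := hs
      by_cases hbc : b = c
      · rw [hbc]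
      · exact same_single (hall b hb) (hall c hc) (hallG R ⟨hR, b, c, hb, hc, hbc, h6, h7⟩) h5 h6 h7

end Pool.Agent.Y364.E3
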