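import Mathlib
import Pool.Agent.Y364.E3.Col
import Pool.Agent.Y364.E3.Main
import Pool.Agent.W964.LieExp.InvDim

set_option autoImplicit false

/-!
# Dimensions of the facets of a triangulated 3-ball
-/

open Filter Topology Metric Pool.Agent.H933R3

namespace Pool.Agent.Y364.E3

/-- the image of an injective chart of dimension 3 is a neighbourhood -/
theorem cover {E : Type} [MetricSpace E] {X : Set E} (e : X ≃ₜ closedBall (0 : R3) 1)
    (ψ : R3 → E) {r : ℝ} (hr : 0 < r) (hX : ∀ y ∈ closedBall (0 : R3) r, ψ y ∈ X)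
    (hc : ContinuousOn ψ (closedBall 0 r)) (hi : Set.InjOn ψ (closedBall 0 r)) :
    ∃ δ > 0, ∀ x ∈ X, dist x (ψ 0) < δ → ∃ y ∈ closedBall (0 : R3) r, ψ y = x := by
  classical
  let f : R3 → R3 := fun y => if h : ψ y ∈ X then (e ⟨ψ y, h⟩ : R3) else 0
  have hf : ∀ y (h : y ∈ closedBall (0 : R3) r), f y = (e ⟨ψ y, hX y h⟩ : R3) := fun y h =>
    dif_pos (hX y h)
  have h0 : (0 : R3) ∈ closedBall (0 : R3) r := mem_closedBall_self hr.le
  have hcf : ContinuousOn f (closedBall 0 r) := by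
    rw [continuousOn_iff_continuous_domRestrict] at hc ⊢
    have h1 : (closedBall (0 : R3) r).domRestrict f =
        fun y : closedBall (0 : R3) r => (e ⟨ψ y, hX y y.2⟩ : R3) := by
      funext y
      exact hf y y.2
    rw [h1]
    exact continuous_subtype_val.comp (e.continuous.comp (Continuous.subtype_mk hc _))
  have hif : Set.InjOn f (closedBall 0 r) := by
    intro a ha b hb hab
    rw [hf a ha, hf b hb] at hab
    have := e.injective (Subtype.ext hab)
    exact hi ha hb (congrArg Subtype.val this)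
  have h2 := Helper514.IoD.image_mem_nhds f 0 r hr hcf hif
  have h3 : ContinuousAt (fun x : X => (e x : R3)) ⟨ψ 0, hX 0 h0⟩ :=
    (continuous_subtype_val.comp e.continuous).continuousAt
  rw [hf 0 h0] at h2
  obtain ⟨δ, hδ, h4⟩ := Metric.mem_nhds_iff.1 (h3 h2)
  refine ⟨δ, hδ, fun x hx hd => ?_⟩
  have h5 : (⟨x, hx⟩ : X) ∈ ball (⟨ψ 0, hX 0 h0⟩ : X) δ := hd
  obtain ⟨y, hy, h6⟩ := h4 h5
  refine ⟨y, hy, ?_⟩
  rw [hf y hy] at h6
  have := e.injective (Subtype.ext h6)
  exact congrArg Subtype.val this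

/-- points given by their coordinates at some vertices -/
noncomputable def pt {m n : ℕ} (vs : Fin m → Fin n) (g : Fin m → ℝ) : Fin n → ℝ :=
  fun i => ∑ k, if vs k = i then g k else 0

section pt

variable {m n : ℕ} {vs : Fin m → Fin n} {g : Fin m → ℝ}

theorem pt_apply (hv : Function.Injective vs) (k : Fin m) : pt vs g (vs k) = g k := by
  unfold pt
  rw [Finset.sum_eq_single k]
  · rw [if_pos rfl]
  · intro j _ hj
    exact if_neg (fun h => hj (hv h))
  · intro h
    exact absurd (Finset.mem_univ k) h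

theorem pt_sum : ∑ i, pt vs g i = ∑ k, g k := by
  unfold pt
  rw [Finset.sum_comm]
  apply Finset.sum_congr rfl
  intro k _
  simp

theorem pt_nonneg (h : ∀ k, 0 ≤ g k) (i : Fin n) : 0 ≤ pt vs g i := by
  unfold pt
  apply Finset.sum_nonneg
  intro k _
  split_ifs
  · exact h k
  · exact le_rfl

theorem pt_supp {i : Fin n} (h : i ∈ supp (pt vs g)) : ∃ k, vs k = i ∧ g k ≠ 0 := by
  rw [mem_supp] at h
  by_contra hn
  push Not at hn
  apply h
  unfold pt
  apply Finset.sum_eq_zero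
  intro k _
  split_ifs with h1
  · exact hn k h1
  · rfl

theorem pt_inj (hv : Function.Injective vs) {g' : Fin m → ℝ} (h : pt vs g = pt vs g') : g = g' := by
  funext k
  rw [← pt_apply (g := g) hv k, h, pt_apply hv k]

theorem pt_cont {Y : Type} [TopologicalSpace Y] {G : Y → Fin m → ℝ} (h : Continuous G) :
    Continuous (fun y => pt vs (G y)) := by
  apply continuous_pi
  intro i
  unfold pt
  apply continuous_finsetSum
  intro k _
  split_ifs
  · exact (continuous_apply k).comp h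
  · exact continuous_const

end pt

variable {n : ℕ} {K : Finset (Finset (Fin n))}

theorem abs_le_norm (y : R3) (k : Fin 3) : |y k| ≤ ‖y‖ := by
  have := PiLp.norm_apply_le y k
  rwa [Real.norm_eq_abs] at this

/-- coordinates for a tetrahedron -/
noncomputable def g4 (y : R3) : Fin 4 → ℝ :=
  ![1 / 4 + y 0, 1 / 4 + y 1, 1 / 4 + y 2, 1 / 4 - y 0 - y 1 - y 2]

/-- coordinates for two adjacent tetrahedra -/
noncomputable def g5 (y : R3) : Fin 5 → ℝ :=
  ![1 / 3 + y 0, 1 / 3 + y 1, 1 / 3 - y 0 - y 1 - |y 2|, max (y 2) 0, max (-y 2) 0]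

theorem g4_cont : Continuous g4 := by
  apply continuous_pi
  intro k
  fin_cases k <;> simp [g4] <;> fun_prop

theorem g5_cont : Continuous g5 := by
  apply continuous_pi
  intro k
  fin_cases k <;> simp [g5] <;> fun_prop

theorem g4_sum (y : R3) : ∑ k, g4 y k = 1 := by
  simp [g4, Fin.sum_univ_succ]
  ring

theorem g5_sum (y : R3) : ∑ k, g5 y k = 1 := by
  simp [g5, Fin.sum_univ_succ]
  ring

theorem g4_nonneg {y : R3} (hy : ‖y‖ ≤ 1 / 12) (k : Fin 4) : 0 ≤ g4 y k := by
  have h0 := abs_le.1 ((abs_le_norm y 0).trans hy)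
  have h1 := abs_le.1 ((abs_le_norm y 1).trans hy)
  have h2 := abs_le.1 ((abs_le_norm y 2).trans hy)
  fin_cases k <;> simp [g4] <;> linarith

theorem g5_nonneg {y : R3} (hy : ‖y‖ ≤ 1 / 12) (k : Fin 5) : 0 ≤ g5 y k := by
  have h0 := abs_le.1 ((abs_le_norm y 0).trans hy)
  have h1 := abs_le.1 ((abs_le_norm y 1).trans hy)
  have h2 := (abs_le_norm y 2).trans hy
  fin_cases k <;> simp [g5] <;> linarith

theorem g4_inj : Function.Injective g4 := by
  intro y y' h
  have h0 : g4 y 0 = g4 y' 0 := by rw [h]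
  have h1 : g4 y 1 = g4 y' 1 := by rw [h]
  have h2 : g4 y 2 = g4 y' 2 := by rw [h]
  simp [g4] at h0 h1 h2
  ext k
  fin_cases k
  · exact h0
  · exact h1
  · exact h2

theorem g5_inj : Function.Injective g5 := by
  intro y y' h
  have h0 : g5 y 0 = g5 y' 0 := by rw [h]
  have h1 : g5 y 1 = g5 y' 1 := by rw [h]
  have h3 : g5 y 3 = g5 y' 3 := by rw [h]
  have h4 : g5 y 4 = g5 y' 4 := by rw [h]
  have e0 : 1 / 3 + y 0 = 1 / 3 + y' 0 := h0
  have e1 : 1 / 3 + y 1 = 1 / 3 + y' 1 := h1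
  have e3 : max (y 2) 0 = max (y' 2) 0 := h3
  have e4 : max (-y 2) 0 = max (-y' 2) 0 := h4
  have key : ∀ t : ℝ, t = max t 0 - max (-t) 0 := by
    intro t
    rcases le_total 0 t with h | h
    · rw [max_eq_left h, max_eq_right (by linarith)]; ring
    · rw [max_eq_right h, max_eq_left (by linarith)]; ring
  ext k
  fin_cases k
  · show y 0 = y' 0
    linarith
  · show y 1 = y' 1
    linarith
  · show y 2 = y' 2
    rw [key (y 2), key (y' 2), e3, e4]

open Finset

/-- every face with four vertices is a facet -/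
theorem facet_of_card (hK : IsCx K) (e : realization K ≃ₜ closedBall (0 : R3) 1)
    {σ : Finset (Fin n)} (hσ : σ ∈ K) (hc : σ.card = 4) : IsFacet K σ := by
  refine ⟨hσ, fun F hF hsub => ?_⟩
  by_contra hne
  have hv : Function.Injective (σ.orderEmbOfFin hc) := (σ.orderEmbOfFin hc).injective
  let ψ : R3 → (Fin n → ℝ) := fun y => pt (σ.orderEmbOfFin hc) (g4 y)
  have hsupp : ∀ y, supp (ψ y) ⊆ σ := by
    intro y i hi
    obtain ⟨k, rfl, -⟩ := pt_supp hi
    exact orderEmbOfFin_mem σ hc k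
  have hmem : ∀ y ∈ closedBall (0 : R3) (1 / 12), ψ y ∈ realization K := by
    intro y hy
    rw [mem_closedBall_zero_iff] at hy
    exact mem_real hσ (pt_nonneg (g4_nonneg hy)) (by
      show ∑ i, pt (σ.orderEmbOfFin hc) (g4 y) i = 1
      rw [pt_sum, g4_sum]) (hsupp y)
  obtain ⟨δ, hδ, h1⟩ := cover e ψ (by norm_num : (0 : ℝ) < 1 / 12) hmem
    (pt_cont g4_cont).continuousOn (fun y _ y' _ h => g4_inj (pt_inj hv h))
  obtain ⟨z, hz, hzs, hzd⟩ := exists_point hK (hmem 0 (mem_closedBall_self (by norm_num))) hF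
    ((hsupp 0).trans hsub) hδ
  obtain ⟨y, hy, h2⟩ := h1 z hz hzd
  apply hne
  refine Subset.antisymm ?_ hsub
  rw [← hzs, ← h2]
  exact hsupp y

theorem exists_insert {R X : Finset (Fin n)} (hR : R.card = 3) (hX : X.card = 4) (h : R ⊆ X) :
    ∃ p ∉ R, X = insert p R := by
  have h1 : (X \ R).card = 1 := by rw [card_sdiff_of_subset h]; omega
  obtain ⟨p, hp⟩ := card_eq_one.1 h1
  have hp1 : p ∈ X \ R := by rw [hp]; simp
  rw [Finset.mem_sdiff] at hp1
  refine ⟨p, hp1.2, ?_⟩
  rw [← sdiff_union_of_subset h, hp]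
  rfl

theorem two_top (hK : IsCx K) (hp : ∀ F, IsFacet K F → F.card = 4)
    (e : realization K ≃ₜ closedBall (0 : R3) 1) : AtMostTwo 3 K := by
  intro R hR X Y Z hX hY hZ hRX hRY hRZ
  by_contra hcon
  push Not at hcon
  obtain ⟨hXY, hXZ, hYZ⟩ := hcon
  obtain ⟨p, hpR, hpX⟩ := exists_insert hR (hp X hX) hRX
  obtain ⟨q, hqR, hqY⟩ := exists_insert hR (hp Y hY) hRY
  have hpq : p ≠ q := by
    rintro rfl
    exact hXY (hpX.trans hqY.symm)
  obtain ⟨a, b, c, hab, hac, hbc, hRabc⟩ := card_eq_three.1 hR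
  have hpa : p ≠ a := fun h => hpR (by rw [hRabc, h]; simp)
  have hpb : p ≠ b := fun h => hpR (by rw [hRabc, h]; simp)
  have hpc : p ≠ c := fun h => hpR (by rw [hRabc, h]; simp)
  have hqa : q ≠ a := fun h => hqR (by rw [hRabc, h]; simp)
  have hqb : q ≠ b := fun h => hqR (by rw [hRabc, h]; simp)
  have hqc : q ≠ c := fun h => hqR (by rw [hRabc, h]; simp)
  let vs : Fin 5 → Fin n := ![a, b, c, p, q]
  have hv : Function.Injective vs := by
    intro i j h
    fin_cases i <;> fin_cases j <;> simp [vs, hab, hac, hbc, hpa, hpb, hpc, hqa, hqb, hqc, hpq,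
      hab.symm, hac.symm, hbc.symm, hpa.symm, hpb.symm, hpc.symm, hqa.symm, hqb.symm, hqc.symm,
      hpq.symm] at h ⊢
  let ψ : R3 → (Fin n → ℝ) := fun y => pt vs (g5 y)
  have haR : a ∈ R := by rw [hRabc]; simp
  have hbR : b ∈ R := by rw [hRabc]; simp
  have hcR : c ∈ R := by rw [hRabc]; simp
  have hpX' : p ∈ X := by rw [hpX]; simp
  have hqY' : q ∈ Y := by rw [hqY]; simp
  have hsuppX : ∀ y : R3, 0 ≤ y 2 → supp (ψ y) ⊆ X := by
    intro y h2 i hi
    obtain ⟨k, rfl, hk⟩ := pt_supp hi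
    fin_cases k
    · exact hRX haR
    · exact hRX hbR
    · exact hRX hcR
    · exact hpX'
    · exfalso
      apply hk
      show max (-y 2) 0 = 0
      exact max_eq_right (by linarith)
  have hsuppY : ∀ y : R3, y 2 ≤ 0 → supp (ψ y) ⊆ Y := by
    intro y h2 i hi
    obtain ⟨k, rfl, hk⟩ := pt_supp hi
    fin_cases k
    · exact hRY haR
    · exact hRY hbR
    · exact hRY hcR
    · exfalso
      apply hk
      show max (y 2) 0 = 0
      exact max_eq_right h2
    · exact hqY'
  have hsum : ∀ y, ∑ i, ψ y i = 1 := by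
    intro y
    show ∑ i, pt vs (g5 y) i = 1
    rw [pt_sum, g5_sum]
  have hmem : ∀ y ∈ closedBall (0 : R3) (1 / 12), ψ y ∈ realization K := by
    intro y hy
    rw [mem_closedBall_zero_iff] at hy
    rcases le_total 0 (y 2) with h | h
    · exact mem_real hX.1 (pt_nonneg (g5_nonneg hy)) (hsum y) (hsuppX y h)
    · exact mem_real hY.1 (pt_nonneg (g5_nonneg hy)) (hsum y) (hsuppY y h)
  obtain ⟨δ, hδ, h1⟩ := cover e ψ (by norm_num : (0 : ℝ) < 1 / 12) hmem
    (pt_cont g5_cont).continuousOn (fun y _ y' _ h => g5_inj (pt_inj hv h))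
  have h0 : supp (ψ 0) ⊆ Z := by
    intro i hi
    have h2 := hsuppX 0 (by simp) hi
    rw [hpX, mem_insert] at h2
    rcases h2 with rfl | h2
    · have h3 := hsuppY 0 (by simp) hi
      rw [hqY, mem_insert] at h3
      rcases h3 with h3 | h3
      · exact absurd h3 hpq
      · exact absurd h3 hpR
    · exact hRZ h2
  obtain ⟨z, hz, hzs, hzd⟩ := exists_point hK (hmem 0 (mem_closedBall_self (by norm_num))) hZ.1
    h0 hδ
  obtain ⟨y, hy, h2⟩ := h1 z hz hzd
  rcases le_total 0 (y 2) with h | h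
  · apply hXZ
    refine hZ.2 X hX.1 ?_
    rw [← hzs, ← h2]
    exact hsuppX y h
  · apply hYZ
    refine hZ.2 Y hY.1 ?_
    rw [← hzs, ← h2]
    exact hsuppY y h

/-- facets have at least four vertices -/
theorem four_le (hK : IsCx K) (e : realization K ≃ₜ closedBall (0 : R3) 1)
    {F : Finset (Fin n)} (hF : IsFacet K F) (hne : F.Nonempty) : 4 ≤ F.card := by
  classical
  set x0 := bary F with hx0
  have hx0X : x0 ∈ realization K := bary_mem hF.1 hne
  have hx0s : supp x0 = F := supp_bary F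
  set p : R3 := (e ⟨x0, hx0X⟩ : R3) with hp
  have hp1 : ‖p‖ ≤ 1 := by
    have := (e ⟨x0, hx0X⟩).2
    rwa [mem_closedBall_zero_iff] at this
  have h1 : {c : closedBall (0 : R3) 1 | supp x0 ⊆ supp (e.symm c : Fin n → ℝ)} ∈
      𝓝 (e ⟨x0, hx0X⟩) := by
    have h2 : ContinuousAt (fun c => (e.symm c : Fin n → ℝ)) (e ⟨x0, hx0X⟩) :=
      (continuous_subtype_val.comp e.symm.continuous).continuousAt
    have h3 : {y : Fin n → ℝ | supp x0 ⊆ supp y} ∈
        𝓝 ((e.symm (e ⟨x0, hx0X⟩) : realization K) : Fin n → ℝ) := by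
      rw [e.symm_apply_apply]
      exact supp_mono x0
    exact h2 h3
  obtain ⟨ε, hε, hε1⟩ := Metric.mem_nhds_iff.1 h1
  have hU : IsOpen (ball (0 : R3) 1 ∩ ball p ε) := isOpen_ball.inter isOpen_ball
  set t : ℝ := min (1 / 2) (ε / 2) with ht
  have ht0 : 0 < t := lt_min (by norm_num) (by linarith)
  have ht1 : t ≤ 1 / 2 := min_le_left _ _
  have ht2 : t ≤ ε / 2 := min_le_right _ _
  have hmemU : (1 - t) • p ∈ ball (0 : R3) 1 ∩ ball p ε := by
    constructor
    · rw [mem_ball_zero_iff, norm_smul, Real.norm_eq_abs, abs_of_nonneg (by linarith)]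
      nlinarith [norm_nonneg p]
    · rw [mem_ball, dist_eq_norm, sub_smul, one_smul, sub_sub_cancel_left, norm_neg, norm_smul,
        Real.norm_eq_abs, abs_of_pos ht0]
      nlinarith [norm_nonneg p]
  obtain ⟨a, ha⟩ := hne
  have hcl : ∀ x ∈ ball (0 : R3) 1 ∩ ball p ε, x ∈ closedBall (0 : R3) 1 := fun x hx =>
    ball_subset_closedBall hx.1
  have hsF : ∀ x (hx : x ∈ ball (0 : R3) 1 ∩ ball p ε),
      supp (e.symm ⟨x, hcl x hx⟩ : Fin n → ℝ) = F := by
    intro x hx
    have h2 : (⟨x, hcl x hx⟩ : closedBall (0 : R3) 1) ∈ ball (e ⟨x0, hx0X⟩) ε := hx.2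
    have h3 := hε1 h2
    exact hF.2 _ (supp_mem hK (e.symm ⟨x, hcl x hx⟩).2) (hx0s ▸ h3)
  let f : R3 → ({i // i ∈ F.erase a} → ℝ) := fun x i =>
    if h : x ∈ closedBall (0 : R3) 1 then (e.symm ⟨x, h⟩ : Fin n → ℝ) i else 0
  have hf : ∀ x (h : x ∈ closedBall (0 : R3) 1), f x = fun i : {i // i ∈ F.erase a} =>
      (e.symm ⟨x, h⟩ : Fin n → ℝ) (i : Fin n) := by
    intro x h
    funext i
    exact dif_pos h
  have hcf : ContinuousOn f (ball (0 : R3) 1 ∩ ball p ε) := by
    rw [continuousOn_iff_continuous_domRestrict]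
    have h2 : (ball (0 : R3) 1 ∩ ball p ε).domRestrict f =
        fun x : (ball (0 : R3) 1 ∩ ball p ε : Set R3) => fun i : {i // i ∈ F.erase a} =>
        (e.symm ⟨x, hcl x x.2⟩ : Fin n → ℝ) (i : Fin n) := by
      funext x
      exact hf x (hcl x x.2)
    rw [h2]
    apply continuous_pi
    intro i
    have h3 : Continuous (fun x : (ball (0 : R3) 1 ∩ ball p ε : Set R3) =>
        ((e.symm ⟨x, hcl x x.2⟩ : realization K) : Fin n → ℝ)) :=
      continuous_subtype_val.comp (e.symm.continuous.comp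
        (Continuous.subtype_mk continuous_subtype_val _))
    exact (continuous_apply (i : Fin n)).comp h3
  have hif : Set.InjOn f (ball (0 : R3) 1 ∩ ball p ε) := by
    intro x hx y hy hxy
    rw [hf x (hcl x hx), hf y (hcl y hy)] at hxy
    have hsx := hsF x hx
    have hsy := hsF y hy
    have hX := (e.symm ⟨x, hcl x hx⟩).2
    have hY := (e.symm ⟨y, hcl y hy⟩).2
    have h2 : ∀ i ∈ F.erase a, (e.symm ⟨x, hcl x hx⟩ : Fin n → ℝ) i =
        (e.symm ⟨y, hcl y hy⟩ : Fin n → ℝ) i := fun i hi => congrFun hxy ⟨i, hi⟩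
    have h3 : (e.symm ⟨x, hcl x hx⟩ : Fin n → ℝ) a = (e.symm ⟨y, hcl y hy⟩ : Fin n → ℝ) a := by
      have e1 := sum_supp hX
      have e2 := sum_supp hY
      rw [hsx, ← add_sum_erase F _ ha] at e1
      rw [hsy, ← add_sum_erase F _ ha] at e2
      rw [sum_congr rfl h2] at e1
      linarith
    have h4 : (e.symm ⟨x, hcl x hx⟩ : Fin n → ℝ) = (e.symm ⟨y, hcl y hy⟩ : Fin n → ℝ) := by
      funext i
      by_cases hi : i ∈ F
      · by_cases hia : i = a
        · rw [hia, h3]
        · exact h2 i (mem_erase.2 ⟨hia, hi⟩)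
      · have e1 : (e.symm ⟨x, hcl x hx⟩ : Fin n → ℝ) i = 0 := by
          by_contra hn
          exact hi (hsx ▸ mem_supp.2 hn)
        have e2 : (e.symm ⟨y, hcl y hy⟩ : Fin n → ℝ) i = 0 := by
          by_contra hn
          exact hi (hsy ▸ mem_supp.2 hn)
        rw [e1, e2]
    have h5 := e.symm.injective (Subtype.ext h4)
    exact congrArg Subtype.val h5
  have h6 := W964.LieExp.finrank_le_of_injOn _ hU _ hmemU f hcf hif
  rw [finrank_euclideanSpace, Fintype.card_fin, Module.finrank_pi, Fintype.card_coe,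
    card_erase_of_mem ha] at h6
  have h7 := card_pos.2 ⟨a, ha⟩
  omega

theorem pure_top (hK : IsCx K) (e : realization K ≃ₜ closedBall (0 : R3) 1)
    {F : Finset (Fin n)} (hF : IsFacet K F) : F.card = 4 := by
  have hne : F.Nonempty := by
    rw [nonempty_iff_ne_empty]
    rintro rfl
    have h1 := (e.symm ⟨0, by simp⟩).2
    have h2 := hF.2 _ (supp_mem hK h1) (empty_subset _)
    have h3 := supp_nonempty h1
    rw [h2] at h3
    exact absurd h3 (by simp)
  have h4 := four_le hK e hF hne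
  obtain ⟨σ, hσ, hc⟩ := exists_subset_card_eq h4
  have h5 := facet_of_card hK e (hK.2 _ hF.1 _ hσ) hc
  rw [h5.2 F hF.1 hσ]
  exact hc

theorem good_of_ball (hK : IsCx K) (hB : IsBall 3 K) : Good K := by
  obtain ⟨e⟩ := hB
  have hp : ∀ F, IsFacet K F → F.card = 4 := fun F hF => pure_top hK e hF
  have htwo := two_top hK hp e
  refine ⟨hK, hp, htwo, ?_, ?_⟩
  · intro A hA _ F F' hF hF' h1 h2
    exact cp_all hK hp e hA F F' hF hF' h1 h2
  · intro v D hD hev
    obtain ⟨c, hc⟩ := sep_top hK hp htwo e v D hD hev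
    exact ⟨c, fun R hR hv F F' hF hF' hne h1 h2 => hc R hR hv F F' hF hF' hne h1 h2⟩

/-- **Every non-evasive triangulated 3-ball is locally constructible.** -/
theorem isLC_of_ball (hK : IsCx K) (hB : IsBall 3 K) (h : NonEvasive K) : IsLC 3 K :=
  isLC_of_nonEvasive (good_of_ball hK hB) h

end Pool.Agent.Y364.E3
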