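import Mathlib
import Pool.Agent.Y364.E3.Dim

set_option autoImplicit false

/-!
# Local constructions in which the tree of simplices is built first
-/

namespace Pool.Agent.Y364.E3

open Finset Pool.Agent.H933R3

variable {V : Type} [DecidableEq V]

/-- `TreeStage d K 𝓕 T`: the facets in `𝓕` of `K`, glued along the faces in `T` only, form a tree
of `d`-simplices. -/
inductive TreeStage (d : ℕ) (K : Finset (Finset V)) :
    Finset (Finset V) → Finset (Finset V) → Prop
  /-- a single `d`-simplex -/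
  | start (F : Finset V) (hF : IsFacet K F) : TreeStage d K {F} ∅
  /-- attach a new `d`-simplex `F'` along exactly one boundary `(d-1)`-face, the face `R` -/
  | attach (𝓕 T : Finset (Finset V)) (F F' R : Finset V) (h : TreeStage d K 𝓕 T) (hF : F ∈ 𝓕)
      (hF' : IsFacet K F') (hn : F' ∉ 𝓕) (hR : R.card = d) (h1 : R ⊆ F) (h2 : R ⊆ F')
      (hT : R ∉ T) : TreeStage d K (insert F' 𝓕) (insert R T)

/-- `GlueStage d 𝓕 T G`: starting with the simplices in `𝓕` glued along the faces in `T`, the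
simplices in `𝓕` glued along the faces in `G` are reached by local gluings. -/
inductive GlueStage (d : ℕ) (𝓕 T : Finset (Finset V)) : Finset (Finset V) → Prop
  /-- no gluing -/
  | start : GlueStage d 𝓕 T T
  /-- identify two distinct boundary `(d-1)`-faces, the copies of `R` in `F` and in `F'`, that
  share a `(d-2)`-face `A` -/
  | glue (G : Finset (Finset V)) (F F' R A : Finset V) (h : GlueStage d 𝓕 T G) (hF : F ∈ 𝓕)
      (hF' : F' ∈ 𝓕) (hne : F ≠ F') (hR : R.card = d) (h1 : R ⊆ F) (h2 : R ⊆ F') (hG : R ∉ G)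
      (hA : A.card + 1 = d) (hAR : A ⊆ R) (hs : SameFace 𝓕 G A F F') :
      GlueStage d 𝓕 T (insert R G)

/-- `K` is a locally constructible `d`-dimensional pseudomanifold: it is obtained from a tree of
`d`-simplices by a sequence of local gluings. -/
def IsTreeLC (d : ℕ) (K : Finset (Finset V)) : Prop :=
  (∀ F, IsFacet K F → F.card = d + 1) ∧ AtMostTwo d K ∧
    ∃ 𝓕 T G : Finset (Finset V), TreeStage d K 𝓕 T ∧ GlueStage d 𝓕 T G ∧
      (∀ F, IsFacet K F → F ∈ 𝓕) ∧
      ∀ A ∈ K, ∀ F ∈ 𝓕, ∀ F' ∈ 𝓕, A ⊆ F → A ⊆ F' → SameFace 𝓕 G A F F'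

theorem glue_mono {d : ℕ} {𝓕 𝓕' T G : Finset (Finset V)} {R : Finset V} (hF : 𝓕 ⊆ 𝓕')
    (h : GlueStage d 𝓕 T G) (hR : R ∉ G) : GlueStage d 𝓕' (insert R T) (insert R G) := by
  induction h with
  | start => exact GlueStage.start
  | glue G F F' R' A h hF1 hF2 hne hR' h1 h2 hG hA hAR hs ih =>
    have h3 : R ≠ R' := fun e => hR (e ▸ mem_insert_self _ _)
    have h4 : R ∉ G := fun e => hR (mem_insert_of_mem e)
    have h5 : R' ∉ insert R G := by
      rw [mem_insert]
      rintro (e | e)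
      · exact h3 e.symm
      · exact hG e
    have h6 := GlueStage.glue (insert R G) F F' R' A (ih h4) (hF hF1) (hF hF2) hne hR' h1 h2 h5 hA
      hAR (same_mono hF (subset_insert _ _) hs)
    rwa [insert_comm] at h6

theorem tree_first {d : ℕ} {K 𝓕 G : Finset (Finset V)} (h : LCStage d K 𝓕 G) :
    ∃ T, TreeStage d K 𝓕 T ∧ T ⊆ G ∧ GlueStage d 𝓕 T G := by
  induction h with
  | start F hF => exact ⟨∅, TreeStage.start F hF, Subset.refl _, GlueStage.start⟩
  | attach 𝓕 G F F' R h hF hF' hn hR h1 h2 hG ih =>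
    obtain ⟨T, h3, h4, h5⟩ := ih
    exact ⟨insert R T, TreeStage.attach 𝓕 T F F' R h3 hF hF' hn hR h1 h2 (fun e => hG (h4 e)),
      insert_subset_insert R h4, glue_mono (subset_insert _ _) h5 hG⟩
  | glue 𝓕 G F F' R A h hF hF' hne hR h1 h2 hG hA hAR hs ih =>
    obtain ⟨T, h3, h4, h5⟩ := ih
    exact ⟨T, h3, h4.trans (subset_insert _ _),
      GlueStage.glue G F F' R A h5 hF hF' hne hR h1 h2 hG hA hAR hs⟩

theorem isTreeLC_of_isLC {d : ℕ} {K : Finset (Finset V)} (h : IsLC d K) : IsTreeLC d K := by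
  obtain ⟨h1, h2, 𝓕, G, h3, h4, h5⟩ := h
  obtain ⟨T, h6, -, h7⟩ := tree_first h3
  exact ⟨h1, h2, 𝓕, T, G, h6, h7, h4, h5⟩

/-- **Every non-evasive triangulated 3-ball is locally constructible.** -/
theorem main {n : ℕ} {K : Finset (Finset (Fin n))} (hK : IsCx K) (hB : IsBall 3 K)
    (h : NonEvasive K) : IsTreeLC 3 K :=
  isTreeLC_of_isLC (isLC_of_ball hK hB h)

end Pool.Agent.Y364.E3
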